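import Pool.Agent.Run7.h168.Mult.Dep
import Pool.Agent.TH456.TM.Inst

/-!
# Several numbers over which a tuple with a measure of algebraic independence becomes dependent
-/

set_option autoImplicit false

namespace Pool.Agent.Run7.h168.Mult

open Finset Pool.Agent.R356 Pool.Agent.N743.SS Pool.Agent.TH456.TM

/-- the terms of a polynomial with polynomial coefficients -/
lemma eval_terms {ι : Type} {m : ℕ} (Q : MvPolynomial ι (MvPolynomial (Fin m) ℤ)) {B : Type} [CommRing B]
    (y : ι → B) (v : Fin m → B) :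
    ∑ t : (Σ s : Q.support, (Q.coeff s.1).support),
      MvPolynomial.aeval y (MvPolynomial.monomial (t.1 : ι →₀ ℕ) ((Q.coeff t.1).coeff t.2)) * ∏ i, v i ^ (t.2 : Fin m →₀ ℕ) i =
    MvPolynomial.eval₂ (MvPolynomial.aeval v : MvPolynomial (Fin m) ℤ →ₐ[ℤ] B).toRingHom y Q := by
  classical
  rw [MvPolynomial.eval₂_eq, Fintype.sum_sigma, ← Finset.sum_coe_sort Q.support]
  refine Finset.sum_congr rfl fun s _ => ?_
  have h1 : (MvPolynomial.aeval v : MvPolynomial (Fin m) ℤ →ₐ[ℤ] B).toRingHom (Q.coeff s) =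
      ∑ r ∈ (Q.coeff s.1).support, ((((Q.coeff s.1).coeff r : ℤ)) : B) * ∏ i, v i ^ r i := by
    show MvPolynomial.aeval v (Q.coeff s) = _
    rw [MvPolynomial.aeval_def, MvPolynomial.eval₂_eq']
    refine Finset.sum_congr rfl fun r _ => ?_
    simp
  rw [h1, Finset.sum_mul, ← Finset.sum_coe_sort (Q.coeff s.1).support]
  refine Finset.sum_congr rfl fun r _ => ?_
  rw [MvPolynomial.aeval_monomial]
  simp only [eq_intCast, Finsupp.prod]
  ring

/-- **Algebraic dependence over the field of several numbers.** -/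
theorem jointM_fin {ι : Type} (x : ι → ℝ) (hx : MeasM x) {m : ℕ} (u : Fin m → ℝ)
    (h : ¬ AlgebraicIndependent (Algebra.adjoin ℤ (Set.range u)) x) : JointM u := by
  classical
  have key : ∀ S : Subalgebra ℤ ℝ, S = (MvPolynomial.aeval u : MvPolynomial (Fin m) ℤ →ₐ[ℤ] ℝ).range →
      ¬ AlgebraicIndependent S x → JointM u := by
    intro S hS h
    subst hS
    rw [algebraicIndependent_iff] at h
    push Not at h
    obtain ⟨P, hP0, hP⟩ := h
    obtain ⟨σ, hσ⟩ : ∃ σ : MvPolynomial (Fin m) ℤ →+* (MvPolynomial.aeval u : MvPolynomial (Fin m) ℤ →ₐ[ℤ] ℝ).range,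
      σ = (MvPolynomial.aeval u : MvPolynomial (Fin m) ℤ →ₐ[ℤ] ℝ).rangeRestrict.toRingHom := ⟨_, rfl⟩
    have hσs : Function.Surjective σ := by rw [hσ]; exact AlgHom.rangeRestrict_surjective _
    obtain ⟨Q, hQ⟩ := MvPolynomial.map_surjective (σ := ι) σ hσs P
    have h1 := eval_terms Q x u
    have h2 : MvPolynomial.eval₂ (MvPolynomial.aeval u : MvPolynomial (Fin m) ℤ →ₐ[ℤ] ℝ).toRingHom x Q = 0 := by
      rw [← hP0, ← hQ, MvPolynomial.aeval_def, MvPolynomial.eval₂_map]
      congr 1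
      rw [hσ]
      rfl
    rw [h2] at h1
    obtain ⟨ι', hι'⟩ : ∃ ι' : (MvPolynomial.aeval u : MvPolynomial (Fin m) ℤ →ₐ[ℤ] ℝ).range →+* ℂ,
      ι' = (algebraMap ℝ ℂ).comp (algebraMap _ ℝ) := ⟨_, rfl⟩
    have hinj : Function.Injective ι' := by
      rw [hι']
      exact (algebraMap ℝ ℂ).injective.comp Subtype.val_injective
    have h3 : P.map ι' ≠ 0 := by
      intro h0
      exact hP ((MvPolynomial.map_injective ι' hinj) (h0.trans (map_zero _).symm))
    obtain ⟨ψ, hψ⟩ : ∃ ψ : ι → ℂ, MvPolynomial.eval ψ (P.map ι') ≠ 0 := by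
      by_contra hcon
      push Not at hcon
      exact h3 (MvPolynomial.funext fun y => by rw [hcon y, map_zero])
    refine jointM_terms x hx u _ _ h1 ψ ?_
    have h4 := eval_terms Q ψ (fun i => ((u i : ℝ) : ℂ))
    rw [h4]
    intro h0
    apply hψ
    rw [← hQ, MvPolynomial.eval_map, MvPolynomial.eval₂_map, ← h0]
    congr 1
    rw [hι', hσ]
    refine MvPolynomial.ringHom_ext (fun r => ?_) (fun i => ?_)
    · simp
    · show (((MvPolynomial.aeval u : MvPolynomial (Fin m) ℤ →ₐ[ℤ] ℝ) (MvPolynomial.X i) : ℝ) : ℂ) =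
        (MvPolynomial.aeval (fun i => ((u i : ℝ) : ℂ)) : MvPolynomial (Fin m) ℤ →ₐ[ℤ] ℂ) (MvPolynomial.X i)
      rw [MvPolynomial.aeval_X, MvPolynomial.aeval_X]
  exact key _ (Algebra.adjoin_range_eq_range_aeval ℤ u) h

/-- **Algebraic dependence over the field of several numbers.** -/
theorem jointM_of_dep {ι κ : Type} [Finite κ] (x : ι → ℝ) (hx : MeasM x) (u : κ → ℝ)
    (h : ¬ AlgebraicIndependent (Algebra.adjoin ℤ (Set.range u)) x) : JointM u := by
  obtain ⟨m, ⟨e⟩⟩ := Finite.exists_equiv_fin κ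
  have h1 : Set.range (u ∘ e.symm) = Set.range u := e.symm.surjective.range_comp u
  have h2 := jointM_fin x hx (u ∘ e.symm) (by rw [h1]; exact h)
  have h3 := h2.comp e.symm
  have h4 : (u ∘ e.symm) ∘ e.symm.symm = u := by
    funext i
    simp
  rwa [h4] at h3

/-- a transcendence measure is a measure of algebraic independence of one number -/
theorem measM_unit (x : ℝ) (hx : MeasT (x : ℂ)) : MeasM (fun _ : Unit => x) := by
  intro D
  obtain ⟨κ, c, hκ, hc, h⟩ := hx D
  refine ⟨κ + 1, c, by linarith, hc, fun P hP hPD H hH => ?_⟩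
  have hH1 := one_le_of_mcoeff hP hH
  have hH0 : 0 < H := by linarith
  obtain ⟨p, hp⟩ : ∃ p : Polynomial ℤ, p = MvPolynomial.uniqueAlgEquiv ℤ Unit P := ⟨_, rfl⟩
  have hp0 : p ≠ 0 := by rw [hp]; exact fun h0 => hP ((MvPolynomial.uniqueAlgEquiv ℤ Unit).injective (h0.trans (map_zero _).symm))
  have hc1 : ∀ k, p.coeff k = P.coeff (Finsupp.single () k) := fun k => by
    rw [hp]; exact MvPolynomial.coeff_uniqueAlgEquiv ℤ P k
  have hdeg : p.natDegree ≤ D := by
    rw [Polynomial.natDegree_le_iff_coeff_eq_zero]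
    intro k hk
    rw [hc1]
    by_contra hne
    have h1 := MvPolynomial.le_totalDegree (MvPolynomial.mem_support_iff.2 hne)
    rw [Finsupp.sum_single_index rfl] at h1
    omega
  have hv : Polynomial.aeval (x : ℂ) p = ((MvPolynomial.aeval (fun _ : Unit => x) P : ℝ) : ℂ) := by
    have h1 : Polynomial.aeval (x : ℂ) p = ((Polynomial.aeval x p : ℝ) : ℂ) := (map_aeval_int (algebraMap ℝ ℂ) x p).symm
    rw [h1]
    congr 1
    rw [hp, Polynomial.aeval_def, MvPolynomial.aeval_def]
    exact MvPolynomial.eval₂_const_uniqueAlgEquiv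
  have h2 := h p hp0 hdeg H hH1 (fun j => by rw [hc1]; exact hH _)
  rw [hv, Complex.norm_real, Real.norm_eq_abs] at h2
  have h3 : c * H ^ (-κ) ≤ |MvPolynomial.aeval (fun _ : Unit => x) P| := by
    have h4 : 0 < H ^ κ := by positivity
    have h5 : H ^ κ * (c * H ^ (-κ)) = c := by
      rw [Real.rpow_neg hH0.le]
      field_simp
    have h6 : H ^ κ * (c * H ^ (-κ)) ≤ H ^ κ * |MvPolynomial.aeval (fun _ : Unit => x) P| := by rw [h5]; exact h2
    exact le_of_mul_le_mul_left h6 h4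
  refine le_trans ?_ h3
  have h7 : H ^ (-(κ + 1)) ≤ H ^ (-κ) := Real.rpow_le_rpow_of_exponent_le hH1 (by linarith)
  exact mul_le_mul_of_nonneg_left h7 hc.le

/-- **A number algebraic over the field of several numbers.** -/
theorem jointM_of_algebraic {κ : Type} [Finite κ] (x : ℝ) (hx : MeasT (x : ℂ)) (u : κ → ℝ)
    (h : IsAlgebraic (Algebra.adjoin ℤ (Set.range u)) x) : JointM u := by
  refine jointM_of_dep (fun _ : Unit => x) (measM_unit x hx) u ?_
  rw [algebraicIndependent_unique_type_iff]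
  intro h1
  exact h1 h

end Pool.Agent.Run7.h168.Mult
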