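import Pool.Agent.Run7.h168.Mult.Field
import Pool.Agent.N743.SS.Gomp

/-!
# Relations between the generalized Gompertz numbers at several points
-/

set_option autoImplicit false

namespace Pool.Agent.Run7.h168.Mult

open Finset Pool.Agent.R356 Pool.Agent.N743.SS Pool.Agent.TH456.TM Pool.Agent.R473.JC Pool.Agent.R352.E

/-- common denominator -/
lemma common_den {k : ℕ} (x : Fin k → ℚ) (hx : ∀ i, 0 < x i) : ∃ (q : ℕ) (mm : Fin k → ℕ), 1 ≤ q ∧
    (∀ i, 1 ≤ mm i) ∧ ∀ i, ((mm i : ℕ) : ℝ) / q = x i := by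
  refine ⟨∏ i, (x i).den, fun i => (x i).num.toNat * ∏ j ∈ Finset.univ.erase i, (x j).den, ?_, fun i => ?_, fun i => ?_⟩
  · exact Nat.one_le_iff_ne_zero.2 (Finset.prod_ne_zero_iff.2 fun i _ => (x i).den_nz)
  · obtain ⟨_, h1, _⟩ := rat_eq (x i) (hx i)
    exact Nat.one_le_iff_ne_zero.2 (Nat.mul_ne_zero (by omega) (Finset.prod_ne_zero_iff.2 fun j _ => (x j).den_nz))
  · obtain ⟨h0, h1, h2⟩ := rat_eq (x i) (hx i)
    rw [← Finset.mul_prod_erase Finset.univ (fun j => (x j).den) (Finset.mem_univ i)]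
    have h3 : ((∏ j ∈ Finset.univ.erase i, (x j).den : ℕ) : ℝ) ≠ 0 := by
      exact_mod_cast Finset.prod_ne_zero_iff.2 fun j _ => (x j).den_nz
    have h4 : (((x i).den : ℕ) : ℝ) ≠ 0 := by exact_mod_cast (x i).den_nz
    push_cast at h3 ⊢
    rw [mul_div_mul_right _ _ h3]
    exact h0

/-- **Generalized Gompertz numbers at several points.** -/
theorem joint_gom (l : ℕ) (hl : 1 ≤ l) {k : ℕ} (x : Fin k → ℚ) (hx : ∀ i, 0 < x i) (hinj : Function.Injective x)
    (n : Fin k → ℤ) (hn : n ≠ 0) {κ : Type} [Finite κ] (u : κ → ℝ)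
    (hu : ∀ i, n i ≠ 0 → gom l (x i) ∈ Algebra.adjoin ℤ (Set.range u))
    (hrel : ∑ i, (n i : ℝ) * mom l (x i) ∈ Algebra.adjoin ℤ (Set.range u)) : JointM u := by
  classical
  obtain ⟨q, mm, hq1, hmm1, hmmx⟩ := common_den x hx
  have hq0 : (q : ℝ) ≠ 0 := by positivity
  have hmminj : Function.Injective mm := by
    intro i j hij
    apply hinj
    have h1 := hmmx i
    have h2 := hmmx j
    rw [hij] at h1
    exact_mod_cast h1.symm.trans h2
  obtain ⟨J, hJ⟩ : ∃ J, l = J + 1 := ⟨l - 1, by omega⟩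
  have hmeas := measM_EE (J + 1) k mm hmminj hmm1 hq1
  obtain ⟨y, hy⟩ : ∃ y : Option (Fin (J + 1) × Fin k) → ℝ, y = (fun o : Option (Fin (J + 1) × Fin k) =>
      o.elim (Real.exp (-1 / q)) (fun p => EE (p.1 + 1) ((mm p.2 : ℝ) / q))) := ⟨_, rfl⟩
  rw [← hy] at hmeas
  obtain ⟨o, ho⟩ : ∃ o : Fin k → Option (Fin (J + 1) × Fin k), o = fun i => some (Fin.last J, i) := ⟨_, rfl⟩
  have hoi : Function.Injective o := by
    intro i j hij
    rw [ho] at hij
    exact (Prod.ext_iff.1 (Option.some_injective _ hij)).2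
  have hon : ∀ i, o i ≠ none := fun i => by rw [ho]; exact Option.some_ne_none _
  have hyo : ∀ i, y (o i) = EE l (x i) := by
    intro i
    rw [hy, ho, ← hmmx, hJ]
    simp [Fin.val_last]
  have hyn : ∀ i, y none ^ mm i = Real.exp (-(x i)) := by
    intro i
    have h1 : y none = Real.exp (-1 / q) := by rw [hy]; rfl
    rw [h1, ← Real.exp_nat_mul, ← hmmx]
    congr 1
    field_simp
  refine jointM_of_dep y hmeas u ?_
  obtain ⟨g, hg⟩ : ∃ g : Fin k → Algebra.adjoin ℤ (Set.range u), ∀ i, n i ≠ 0 → (g i : ℝ) = gom l (x i) := by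
    refine ⟨fun i => if h : n i ≠ 0 then ⟨gom l (x i), hu i h⟩ else 0, fun i hi => ?_⟩
    simp only [dif_pos hi]
  obtain ⟨i₀, hi₀⟩ : ∃ i, n i ≠ 0 := by
    by_contra hcon
    push Not at hcon
    exact hn (funext hcon)
  intro h
  rw [algebraicIndependent_iff] at h
  obtain ⟨A, hA⟩ : ∃ A : Fin k → Algebra.adjoin ℤ (Set.range u), ∀ i, (A i : ℝ) = n i * l.factorial :=
    ⟨fun i => (n i : Algebra.adjoin ℤ (Set.range u)) * (l.factorial : Algebra.adjoin ℤ (Set.range u)),
      fun i => by simp⟩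
  obtain ⟨B, hB⟩ : ∃ B : Fin k → Algebra.adjoin ℤ (Set.range u), ∀ i, (B i : ℝ) = n i * (-1) ^ l * (g i : ℝ) :=
    ⟨fun i => (n i : Algebra.adjoin ℤ (Set.range u)) * (-1) ^ l * g i, fun i => by simp⟩
  obtain ⟨P, hP⟩ : ∃ P : MvPolynomial (Option (Fin (J + 1) × Fin k)) (Algebra.adjoin ℤ (Set.range u)),
    P = ∑ i, (MvPolynomial.C (A i) * MvPolynomial.X (o i) + MvPolynomial.C (B i) *
        MvPolynomial.X none ^ mm i) -
      MvPolynomial.C (⟨_, hrel⟩ : Algebra.adjoin ℤ (Set.range u)) := ⟨_, rfl⟩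
  have h0 : MvPolynomial.aeval y P = 0 := by
    rw [hP, map_sub, map_sum, MvPolynomial.aeval_C, sub_eq_zero]
    refine (Finset.sum_congr rfl fun i _ => ?_ : _ = ∑ i, (n i : ℝ) * mom l (x i)).trans rfl
    rw [map_add, map_mul, map_mul, MvPolynomial.aeval_C, MvPolynomial.aeval_C, map_pow, MvPolynomial.aeval_X,
      MvPolynomial.aeval_X, hyo, hyn]
    have e1 : (algebraMap (Algebra.adjoin ℤ (Set.range u)) ℝ) (A i) = n i * l.factorial := hA i
    have e2 : (algebraMap (Algebra.adjoin ℤ (Set.range u)) ℝ) (B i) = n i * (-1) ^ l * (g i : ℝ) := hB i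
    rw [e1, e2]
    by_cases hi : n i = 0
    · rw [hi]; simp
    · rw [hg i hi, rel l (by exact_mod_cast hx i)]
      ring
  have hP0 := h P h0
  have hc := congrArg (MvPolynomial.coeff (Finsupp.single (o i₀) 1)) hP0
  rw [hP, MvPolynomial.coeff_sub, MvPolynomial.coeff_sum, MvPolynomial.coeff_zero, MvPolynomial.coeff_C,
    if_neg (by
      intro h1
      have h2 := DFunLike.congr_fun h1 (o i₀)
      simp at h2), sub_zero, Finset.sum_eq_single i₀] at hc
  · have t1 : MvPolynomial.coeff (Finsupp.single (o i₀) 1)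
        (MvPolynomial.X (o i₀) : MvPolynomial _ (Algebra.adjoin ℤ (Set.range u))) = 1 := by
      simp
    rw [MvPolynomial.coeff_add, MvPolynomial.coeff_C_mul, MvPolynomial.coeff_C_mul, t1, mul_one,
      MvPolynomial.coeff_X_pow, if_neg (by
        intro h1
        have h2 := DFunLike.congr_fun h1 (o i₀)
        rw [Finsupp.single_apply, if_neg (Ne.symm (hon i₀)), Finsupp.single_eq_same] at h2
        exact absurd h2 (by norm_num)), mul_zero, add_zero] at hc
    have h3 : ((n i₀ : ℝ)) * l.factorial = 0 := by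
      have h4 := congrArg (fun z : Algebra.adjoin ℤ (Set.range u) => (z : ℝ)) hc
      simp only [hA] at h4
      exact h4
    rcases mul_eq_zero.1 h3 with h4 | h4
    · exact hi₀ (by exact_mod_cast h4)
    · exact absurd h4 (by exact_mod_cast l.factorial_ne_zero)
  · intro i _ hi
    rw [MvPolynomial.coeff_add, MvPolynomial.coeff_C_mul, MvPolynomial.coeff_C_mul, MvPolynomial.coeff_X,
      MvPolynomial.coeff_X_pow, if_neg (by
        intro h1
        have h2 := DFunLike.congr_fun h1 (o i₀)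
        rw [Finsupp.single_apply, if_neg (fun h => hi (hoi h)), Finsupp.single_eq_same] at h2
        exact absurd h2 (by norm_num)), if_neg (by
        intro h1
        have h2 := DFunLike.congr_fun h1 (o i₀)
        rw [Finsupp.single_apply, if_neg (Ne.symm (hon i₀)), Finsupp.single_eq_same] at h2
        exact absurd h2 (by norm_num)), mul_zero, mul_zero, add_zero]
  · intro h1
    exact absurd (Finset.mem_univ _) h1

end Pool.Agent.Run7.h168.Mult
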