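import Pool.Agent.Run7.h168.Mult.Dep
import Pool.Agent.R473.JC.Final

/-!
# The digits of several numbers with a joint transcendence measure
-/

set_option autoImplicit false

namespace Pool.Agent.Run7.h168.Mult

open Finset Polynomial Pool.Agent.W472.AC Pool.Agent.R473.EC Pool.Agent.TH629.ExpDig
  Pool.Agent.R356 Pool.Agent.R473.JC

variable {κ : Type} [Fintype κ]

lemma half_lt_log {b : ℕ} (hb : 2 ≤ b) : 1 / 2 < Real.log b := by
  have hbR : (2 : ℝ) ≤ b := by exact_mod_cast hb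
  have h1 := Real.log_le_log (by norm_num) hbR
  have h2 := Real.log_two_gt_d9
  linarith

/-- All the changes are among the first `t_i` digits. -/
theorem lastM (u : κ → ℝ) (hu : JointM u) (r : ℕ) : ∃ A : ℝ, 1 ≤ A ∧
    ∀ b : κ → ℕ, (∀ i, 2 ≤ b i) → ∀ L k t : κ → ℕ, (∀ i, t i ≤ L i) → ∀ s : κ → ℕ → ℤ,
      (∀ i l, 0 ≤ s i l ∧ s i l < b i) →
      (∀ i l, t i < l → l ≤ L i → s i l = Pool.Agent.W472.AC.digit (b i) (u i) l) →
      (∀ i, ARel (s i) r (L i) (k i)) → ∀ M : ℝ, 0 ≤ M →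
      (∀ i, L i * Real.log (b i) ≤ M) → (∀ i, M ≤ L i * Real.log (b i) + Real.log (b i)) →
      M ≤ A * ∑ i, (k i + 1 + t i) * Real.log (b i) := by
  classical
  choose A₀ hA₀ hpol using fun i => poly_of_rel (u i) r
  obtain ⟨c, C, hc, hC, hj⟩ := hu r
  obtain ⟨a, ha⟩ : ∃ a : ℝ, a = 1 + ∑ i, A₀ i := ⟨_, rfl⟩
  have haA : ∀ i, A₀ i ≤ a := by
    intro i
    have h1 := Finset.single_le_sum (f := fun i => A₀ i) (fun j _ => (by linarith [hA₀ j] : 0 ≤ A₀ j)) (Finset.mem_univ i)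
    rw [ha]; linarith
  have ha1 : 1 ≤ a := by
    rw [ha]
    have := Finset.sum_nonneg fun i (_ : i ∈ (Finset.univ : Finset κ)) => (by linarith [hA₀ i] : 0 ≤ A₀ i)
    linarith
  obtain ⟨g, hg⟩ : ∃ g : ℝ, g = a * (1 + c) := ⟨_, rfl⟩
  have hg1 : 1 ≤ g := by rw [hg]; nlinarith
  obtain ⟨n, hn⟩ : ∃ n : ℝ, n = Fintype.card κ := ⟨_, rfl⟩
  have hn0 : 0 ≤ n := by rw [hn]; positivity
  obtain ⟨N, hN⟩ : ∃ N : ℝ, N = 4 * g * (n + 1) := ⟨_, rfl⟩
  have hN1 : 1 ≤ N := by rw [hN]; nlinarith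
  have hN0 : 0 < N := by linarith
  have hlN : 0 ≤ Real.log N := Real.log_nonneg hN1
  have hgn : 0 ≤ g * n * Real.log N := by positivity
  refine ⟨2 * g + 3 + 4 * (g * n * Real.log N) + 4 * |Real.log C|, by linarith [abs_nonneg (Real.log C)], ?_⟩
  intro b hb L k t htL s hs hst hrel M hM0 hML hML'
  choose P hP0 hPd hPc hPv using fun i => hpol i (b i) (hb i) (L i) (k i) (t i) (htL i) (s i) (hs i) (hst i) (hrel i)
  obtain ⟨lb, hlb⟩ : ∃ lb : κ → ℝ, lb = fun i => Real.log (b i) := ⟨_, rfl⟩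
  have hlbe : ∀ i, Real.log (b i) = lb i := fun i => by rw [hlb]
  have hlb2 : ∀ i, 1 / 2 < lb i := fun i => by rw [hlb]; exact half_lt_log (hb i)
  obtain ⟨lL, hlL⟩ : ∃ lL : κ → ℝ, lL = fun i => Real.log ((L i : ℝ) + 1) := ⟨_, rfl⟩
  have hlLe : ∀ i, Real.log ((L i : ℝ) + 1) = lL i := fun i => by rw [hlL]
  simp only [hlbe, hlLe] at hPc hPv hML hML' ⊢
  have hL0 : ∀ i, (0 : ℝ) ≤ L i := fun i => Nat.cast_nonneg _
  have hlL0 : ∀ i, 0 ≤ lL i := fun i => by rw [hlL]; exact Real.log_nonneg (by linarith [hL0 i])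
  have hR0 : ∀ i, 0 ≤ ((k i : ℝ) + 1 + t i) * lb i := fun i => by
    have := hlb2 i
    positivity
  obtain ⟨R, hR⟩ : ∃ R : ℝ, R = ∑ i, ((k i : ℝ) + 1 + t i) * lb i := ⟨_, rfl⟩
  have hRi : ∀ i, lb i ≤ R := by
    intro i
    have h1 := Finset.single_le_sum (f := fun i => ((k i : ℝ) + 1 + t i) * lb i) (fun j _ => hR0 j) (Finset.mem_univ i)
    rw [← hR] at h1
    refine le_trans ?_ h1
    have h2 : (0 : ℝ) ≤ k i := Nat.cast_nonneg _
    have h3 : (0 : ℝ) ≤ t i := Nat.cast_nonneg _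
    have h4 := hlb2 i
    nlinarith
  obtain ⟨Λ, hΛ⟩ : ∃ Λ : ℝ, Λ = ∑ i, (((k i : ℝ) + 1 + t i) * lb i + lL i) := ⟨_, rfl⟩
  have hΛi : ∀ i, ((k i : ℝ) + 1 + t i) * lb i + lL i ≤ Λ := by
    intro i
    rw [hΛ]
    exact Finset.single_le_sum (f := fun i => ((k i : ℝ) + 1 + t i) * lb i + lL i)
      (fun j _ => add_nonneg (hR0 j) (hlL0 j)) (Finset.mem_univ i)
  have haΛ : ∀ i, A₀ i * (((k i : ℝ) + 1 + t i) * lb i + lL i) ≤ a * Λ := fun i =>
    mul_le_mul (haA i) (hΛi i) (add_nonneg (hR0 i) (hlL0 i)) (by linarith)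
  obtain ⟨i, hi⟩ := hj P hP0 hPd (Real.exp (a * Λ)) (fun i j => (hPc i j).trans (Real.exp_le_exp.2 (haΛ i)))
  have h5 : C * Real.exp (a * Λ) ^ (-c) ≤ Real.exp (a * Λ - (M - lb i)) := by
    refine hi.trans ((hPv i).trans (Real.exp_le_exp.2 ?_))
    have := haΛ i
    have := hML' i
    linarith
  rw [← Real.exp_mul] at h5
  have h6 : Real.log C + a * Λ * -c ≤ a * Λ - (M - lb i) := by
    have h7 := Real.log_le_log (by positivity) h5
    rwa [Real.log_mul hC.ne' (Real.exp_pos _).ne', Real.log_exp, Real.log_exp] at h7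
  have h8 : M ≤ g * Λ + R + |Real.log C| := by
    rw [hg]
    have := neg_abs_le (Real.log C)
    have := hRi i
    linarith
  -- logarithms of the lengths
  have hlog : ∀ j, lL j ≤ 2 * (M + R) / N + Real.log N := by
    intro j
    have h3 := Real.log_le_sub_one_of_pos (show 0 < ((L j : ℝ) + 1) / N by have := hL0 j; positivity)
    rw [Real.log_div (by have := hL0 j; positivity) (by positivity), hlLe] at h3
    have h4 : (L j : ℝ) + 1 ≤ 2 * (M + R) := by
      have h9 : 1 * ((L j : ℝ) + 1) ≤ 2 * lb j * (L j + 1) :=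
        mul_le_mul_of_nonneg_right (by linarith [hlb2 j]) (by linarith [hL0 j])
      have := hML j
      have := hRi j
      linarith
    have h10 : ((L j : ℝ) + 1) / N ≤ 2 * (M + R) / N := by gcongr
    linarith
  have hΛ2 : Λ ≤ R + n * (2 * (M + R) / N + Real.log N) := by
    rw [hΛ, Finset.sum_add_distrib, ← hR]
    have h9 : ∑ j, lL j ≤ ∑ _j : κ, (2 * (M + R) / N + Real.log N) := Finset.sum_le_sum fun j _ => hlog j
    rw [Finset.sum_const, Finset.card_univ, nsmul_eq_mul, ← hn] at h9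
    linarith
  have hRpos : 1 / 2 ≤ R := by have := hRi i; have := hlb2 i; linarith
  have h9 : g * (n * (2 * (M + R) / N)) ≤ (M + R) / 2 := by
    have h10 : g * (n * (2 * (M + R) / N)) = (n / (n + 1)) * ((M + R) / 2) := by
      rw [hN]
      field_simp
      ring
    rw [h10]
    have h11 : n / (n + 1) ≤ 1 := by rw [div_le_one (by linarith)]; linarith
    exact mul_le_of_le_one_left (by linarith) h11
  have h10 : g * Λ ≤ g * R + (M + R) / 2 + g * n * Real.log N := by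
    calc g * Λ ≤ g * (R + n * (2 * (M + R) / N + Real.log N)) := mul_le_mul_of_nonneg_left hΛ2 (by linarith)
      _ = g * R + g * (n * (2 * (M + R) / N)) + g * n * Real.log N := by ring
      _ ≤ _ := by linarith
  rw [← hR]
  have h11 : M ≤ (2 * g + 3) * R + 2 * (g * n * Real.log N) + 2 * |Real.log C| := by linarith
  have h12 : 2 * (g * n * Real.log N) ≤ 4 * (g * n * Real.log N) * R := by nlinarith
  have h13 : 2 * |Real.log C| ≤ 4 * |Real.log C| * R := by nlinarith [abs_nonneg (Real.log C)]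
  calc M ≤ (2 * g + 3) * R + 2 * (g * n * Real.log N) + 2 * |Real.log C| := h11
    _ ≤ (2 * g + 3) * R + 4 * (g * n * Real.log N) * R + 4 * |Real.log C| * R := by linarith
    _ = _ := by ring

/-- **Several numbers, several bases, a bounded number of changes.** -/
theorem errorsM (u : κ → ℝ) (hu : JointM u) (r : ℕ) : ∃ A : ℝ, 1 ≤ A ∧
    ∀ b : κ → ℕ, (∀ i, 2 ≤ b i) → ∀ K : ℕ, ∀ L k : κ → ℕ, ∀ s : κ → ℕ → ℤ,
      (∀ i l, 0 ≤ s i l ∧ s i l < b i) → ∑ i, (chg (b i) (u i) (s i) (L i)).ncard ≤ K →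
      (∀ i, ARel (s i) r (L i) (k i)) → ∀ M : ℝ, (∀ i, M ≤ L i * Real.log (b i)) →
      M ≤ A ^ (K + 1) * ∑ i, (k i + 1) * Real.log (b i) := by
  classical
  obtain ⟨A, hA, hmain⟩ := lastM u hu r
  obtain ⟨n, hn⟩ : ∃ n : ℝ, n = Fintype.card κ := ⟨_, rfl⟩
  have hn0 : 0 ≤ n := by rw [hn]; positivity
  refine ⟨(1 + 2 * n) * A, by nlinarith, fun b hb K => ?_⟩
  obtain ⟨A', hA'⟩ : ∃ A' : ℝ, A' = (1 + 2 * n) * A := ⟨_, rfl⟩
  rw [← hA']
  have hA'1 : 1 ≤ A' := by rw [hA']; nlinarith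
  obtain ⟨lb, hlb⟩ : ∃ lb : κ → ℝ, lb = fun i => Real.log (b i) := ⟨_, rfl⟩
  have hlbe : ∀ i, Real.log (b i) = lb i := fun i => by rw [hlb]
  have hlb2 : ∀ i, 1 / 2 < lb i := fun i => by rw [hlb]; exact half_lt_log (hb i)
  have hlb0 : ∀ i, 0 < lb i := fun i => by linarith [hlb2 i]
  -- truncation
  have hfloor : ∀ (L : κ → ℕ) (M : ℝ), 0 ≤ M → (∀ i, M ≤ L i * lb i) → ∃ L' : κ → ℕ, (∀ i, L' i ≤ L i) ∧
      (∀ i, L' i * lb i ≤ M) ∧ ∀ i, M ≤ L' i * lb i + lb i := by
    intro L M hM hML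
    refine ⟨fun i => ⌊M / lb i⌋₊, fun i => ?_, fun i => ?_, fun i => ?_⟩
    · have h1 : ((⌊M / lb i⌋₊ : ℕ) : ℝ) ≤ L i := by
        refine (Nat.floor_le (div_nonneg hM (hlb0 i).le)).trans ?_
        rw [div_le_iff₀ (hlb0 i)]
        exact hML i
      exact_mod_cast h1
    · rw [← le_div_iff₀ (hlb0 i)]
      exact Nat.floor_le (div_nonneg hM (hlb0 i).le)
    · have h1 := Nat.lt_floor_add_one (M / lb i)
      rw [div_lt_iff₀ (hlb0 i)] at h1
      linarith
  induction K with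
  | zero =>
    intro L k s hs hK hrel M hML
    simp only [hlbe] at hML ⊢
    have hk0 : ∀ i, (0 : ℝ) ≤ k i := fun i => Nat.cast_nonneg _
    have hRn : 0 ≤ ∑ i, ((k i : ℝ) + 1) * lb i := Finset.sum_nonneg fun i _ => by
      have := hk0 i
      have := hlb0 i
      positivity
    rcases lt_or_ge M 0 with hMn | hM0
    · exact hMn.le.trans (mul_nonneg (by positivity) hRn)
    obtain ⟨L', h1, h2, h3⟩ := hfloor L M hM0 hML
    have hz : ∀ i, (chg (b i) (u i) (s i) (L i)).ncard = 0 := fun i => by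
      have := Finset.single_le_sum (f := fun i => (chg (b i) (u i) (s i) (L i)).ncard) (fun _ _ => Nat.zero_le _)
        (Finset.mem_univ i)
      omega
    have hm := hmain b hb L' k (fun _ => 0) (fun _ => Nat.zero_le _) s hs (fun i l hl hl' => by
      by_contra hcon
      have h4 := hz i
      rw [Set.ncard_eq_zero (chg_fin _ _ _ _)] at h4
      have h5 : l ∈ chg (b i) (u i) (s i) (L i) := ⟨hl, hl'.trans (h1 i), hcon⟩
      rw [h4] at h5
      exact h5) (fun i => (hrel i).trunc (L' i) (h1 i)) M hM0 (by simpa only [hlbe] using h2)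
      (by simpa only [hlbe] using h3)
    simp only [hlbe, Nat.cast_zero, add_zero] at hm
    rw [zero_add, pow_one]
    refine hm.trans (mul_le_mul_of_nonneg_right ?_ hRn)
    rw [hA']; nlinarith
  | succ K ih =>
    intro L k s hs hK hrel M hML
    simp only [hlbe] at hML ih ⊢
    have hk0 : ∀ i, (0 : ℝ) ≤ k i := fun i => Nat.cast_nonneg _
    have hRi0 : ∀ i, 0 ≤ ((k i : ℝ) + 1) * lb i := fun i => by
      have := hk0 i
      have := hlb0 i
      positivity
    obtain ⟨R, hR⟩ : ∃ R : ℝ, R = ∑ i, ((k i : ℝ) + 1) * lb i := ⟨_, rfl⟩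
    have hRn : 0 ≤ R := by rw [hR]; exact Finset.sum_nonneg fun i _ => hRi0 i
    have hRs : ∑ i, lb i ≤ R := by
      rw [hR]
      refine Finset.sum_le_sum fun i _ => ?_
      have := hk0 i
      have := hlb0 i
      nlinarith
    have hlbs : ∀ i, lb i ≤ ∑ i, lb i := fun i =>
      Finset.single_le_sum (f := fun i => lb i) (fun j _ => (hlb0 j).le) (Finset.mem_univ i)
    rw [← hR]
    rcases lt_or_ge M 0 with hMn | hM0
    · exact hMn.le.trans (mul_nonneg (by positivity) hRn)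
    obtain ⟨L', h1, h2, h3⟩ := hfloor L M hM0 hML
    choose t htL hst htn using fun i => chg_last (b i) (u i) (s i) (L' i)
    have hm := hmain b hb L' k t htL s hs hst (fun i => (hrel i).trunc (L' i) (h1 i)) M hM0
      (by simpa only [hlbe] using h2) (by simpa only [hlbe] using h3)
    simp only [hlbe] at hm
    obtain ⟨W, hW⟩ : ∃ W : ℝ, W = A' ^ (K + 1) := ⟨_, rfl⟩
    have hW1 : 1 ≤ W := by rw [hW]; exact one_le_pow₀ hA'1
    have hWR : R ≤ W * R := le_mul_of_one_le_left hRn hW1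
    have hlast : ∀ i, (t i : ℝ) * lb i ≤ 2 * (W * R) := by
      intro i
      have hne : Nonempty κ := ⟨i⟩
      obtain ⟨i₀, hi₀⟩ := Finite.exists_max (fun i => (t i : ℝ) * lb i)
      refine (hi₀ i).trans ?_
      rcases Nat.eq_zero_or_pos (t i₀) with h0 | hpos
      · rw [h0, Nat.cast_zero, zero_mul]; positivity
      · obtain ⟨L'', hL''⟩ : ∃ L'' : κ → ℕ, L'' = Function.update L' i₀ (t i₀ - 1) := ⟨_, rfl⟩
        have hu1 : L'' i₀ = t i₀ - 1 := by rw [hL'', Function.update_self]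
        have hu2 : ∀ i, i ≠ i₀ → L'' i = L' i := fun i hi => by rw [hL'', Function.update_of_ne hi]
        have hle : ∀ i, L'' i ≤ L' i := by
          intro i
          by_cases hi : i = i₀
          · rw [hi, hu1]; have := htL i₀; omega
          · rw [hu2 i hi]
        have hcount : ∑ i, (chg (b i) (u i) (s i) (L'' i)).ncard + 1 ≤ ∑ i, (chg (b i) (u i) (s i) (L i)).ncard := by
          rw [← Finset.add_sum_erase _ _ (Finset.mem_univ i₀),
            ← Finset.add_sum_erase (Finset.univ : Finset κ) (fun i => (chg (b i) (u i) (s i) (L i)).ncard) (Finset.mem_univ i₀)]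
          have h4 : ∑ i ∈ Finset.univ.erase i₀, (chg (b i) (u i) (s i) (L'' i)).ncard ≤
              ∑ i ∈ Finset.univ.erase i₀, (chg (b i) (u i) (s i) (L i)).ncard :=
            Finset.sum_le_sum fun i _ => Set.ncard_le_ncard (chg_mono _ _ _ ((hle i).trans (h1 i))) (chg_fin _ _ _ _)
          have h5 := htn i₀ hpos
          have h6 := Set.ncard_le_ncard (chg_mono (b i₀) (u i₀) (s i₀) (h1 i₀)) (chg_fin _ _ _ _)
          rw [hu1]
          omega
        have h7 := ih L'' k s hs (by omega) (fun i => (hrel i).trunc (L'' i) ((hle i).trans (h1 i)))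
          ((t i₀ : ℝ) * lb i₀ - ∑ i, lb i) (fun i => by
            by_cases hi : i = i₀
            · rw [hi, hu1, Nat.cast_sub hpos]
              have := hlbs i₀
              push_cast
              linarith
            · rw [hu2 i hi]
              have h8 : (t i₀ : ℝ) * lb i₀ ≤ L' i₀ * lb i₀ :=
                mul_le_mul_of_nonneg_right (by exact_mod_cast htL i₀) (hlb0 i₀).le
              have := h2 i₀
              have := h3 i
              have := hlbs i
              linarith)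
        rw [← hR, ← hW] at h7
        linarith
    have hsum : ∑ i, ((k i : ℝ) + 1 + t i) * lb i ≤ R + n * (2 * (W * R)) := by
      have h4 : ∀ i, ((k i : ℝ) + 1 + t i) * lb i = ((k i : ℝ) + 1) * lb i + t i * lb i := fun i => by ring
      simp only [h4]
      rw [Finset.sum_add_distrib, ← hR]
      have h5 : ∑ i, (t i : ℝ) * lb i ≤ ∑ _i : κ, 2 * (W * R) := Finset.sum_le_sum fun i _ => hlast i
      rw [Finset.sum_const, Finset.card_univ, nsmul_eq_mul, ← hn] at h5
      linarith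
    calc M ≤ A * ∑ i, ((k i : ℝ) + 1 + t i) * lb i := hm
      _ ≤ A * (R + n * (2 * (W * R))) := mul_le_mul_of_nonneg_left hsum (by linarith)
      _ ≤ A * (W * R + n * (2 * (W * R))) := mul_le_mul_of_nonneg_left (by linarith) (by linarith)
      _ = A' ^ (K + 1 + 1) * R := by rw [hA'] at hW ⊢; rw [pow_succ _ (K + 1), ← hW]; ring

/-- **The digits of several numbers.** -/
theorem digitsM (u : κ → ℝ) (hu : JointM u) (r : ℕ) : ∃ A : ℝ, 1 ≤ A ∧
    ∀ b : κ → ℕ, (∀ i, 2 ≤ b i) → ∀ K L : κ → ℕ, ∀ M : ℝ, (∀ i, M ≤ L i * Real.log (b i)) →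
      M ≤ A ^ (∑ i, K i + 1) * ∑ i, (complexity (b i) (u i) r (K i) (L i) + 1) * Real.log (b i) := by
  obtain ⟨A, hA, h⟩ := errorsM u hu r
  refine ⟨A, hA, fun b hb K L M hM => ?_⟩
  choose s hs hrel using fun i => complexity_mem (b i) (hb i) (u i) r (K i) (L i)
  exact h b hb (∑ i, K i) L (fun i => complexity (b i) (u i) r (K i) (L i)) s (fun i => (hs i).1)
    (Finset.sum_le_sum fun i _ => (hs i).2) (fun i => arel_of_algRelation _ _ _ _ (hrel i)) M hM

end Pool.Agent.Run7.h168.Mult
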