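import Pool.Agent.Run7.h168.Mult.Wrap
import Pool.Agent.Run7.h168.Mult.Dig

/-!
# The numbers of low complexity in a finite family
-/

set_option autoImplicit false

namespace Pool.Agent.Run7.h168.Mult

open Finset Pool.Agent.R356 Pool.Agent.N743.SS Pool.Agent.TH456.TM Pool.Agent.R473.JC

/-- algebraic over the field is algebraic over the ring -/
lemma alg_int_of_field (S : Set ℝ) (x : ℝ) (h : IsAlgebraic (IntermediateField.adjoin ℚ S) x) :
    IsAlgebraic (Algebra.adjoin ℤ S) x := by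
  have hsub : (Algebra.adjoin ℤ S).toSubring ≤ (IntermediateField.adjoin ℚ S).toSubfield.toSubring := by
    intro y hy
    have h1 : Algebra.adjoin ℤ S ≤ (subalgebraOfSubring (IntermediateField.adjoin ℚ S).toSubfield.toSubring) := by
      refine Algebra.adjoin_le ?_
      intro z hz
      exact IntermediateField.subset_adjoin ℚ S hz
    exact h1 hy
  let _ : Algebra (Algebra.adjoin ℤ S) (IntermediateField.adjoin ℚ S) := (Subring.inclusion hsub).toAlgebra
  have : IsScalarTower (Algebra.adjoin ℤ S) (IntermediateField.adjoin ℚ S) ℝ :=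
    IsScalarTower.of_algebraMap_eq fun y => rfl
  have : Algebra.IsAlgebraic (Algebra.adjoin ℤ S) (IntermediateField.adjoin ℚ S) := by
    refine ⟨fun y => ?_⟩
    have hy : IsAlgebraic (Algebra.adjoin ℤ S) (y : ℝ) := by
      refine IntermediateField.adjoin_induction (F := ℚ) (s := S)
        (p := fun z _ => IsAlgebraic (Algebra.adjoin ℤ S) z) ?_ ?_ ?_ ?_ ?_ y.2
      · intro z hz
        exact isAlgebraic_algebraMap (⟨z, Algebra.subset_adjoin hz⟩ : Algebra.adjoin ℤ S)
      · intro q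
        have h1 : IsAlgebraic ℤ ((algebraMap ℚ ℝ) q) :=
          (IsFractionRing.isAlgebraic_iff ℤ ℚ ℝ).2 (isAlgebraic_algebraMap q)
        exact h1.extendScalars (by
          intro a b hab
          have h2 := congrArg (fun z : Algebra.adjoin ℤ S => (z : ℝ)) hab
          simpa using h2)
      · intro a b _ _ ha hb
        exact ha.add hb
      · intro a _ ha
        exact ha.inv
      · intro a b _ _ ha hb
        exact ha.mul hb
    exact (isAlgebraic_algHom_iff (IsScalarTower.toAlgHom (Algebra.adjoin ℤ S) (IntermediateField.adjoin ℚ S) ℝ)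
      Subtype.val_injective).1 hy
  exact h.restrictScalars (Algebra.adjoin ℤ S)

/-- **A number algebraic over the field of several numbers.** -/
theorem jointM_of_field {κ : Type} [Finite κ] (x : ℝ) (hx : MeasT (x : ℂ)) (u : κ → ℝ)
    (h : IsAlgebraic (IntermediateField.adjoin ℚ (Set.range u)) x) : JointM u :=
  jointM_of_algebraic x hx u (alg_int_of_field _ x h)

lemma not_alg_empty (x : ℝ) (hx : MeasT (x : ℂ)) : ¬ IsAlgebraic (Algebra.adjoin ℤ (∅ : Set ℝ)) x := by
  intro h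
  have h1 := transcendental_of_measT hx
  apply h1
  have h2 : IsAlgebraic (Algebra.adjoin ℤ (Set.range (fun i : Fin 0 => (0 : ℝ)))) x := by
    have : Set.range (fun i : Fin 0 => (0 : ℝ)) = ∅ := Set.range_eq_empty _
    rw [this]; exact h
  have h3 := jointM_of_algebraic x hx (fun i : Fin 0 => (0 : ℝ)) h2
  obtain ⟨r, C, _, _, h4⟩ := h3 0
  obtain ⟨i, _⟩ := h4 (fun i => i.elim0) (fun i => i.elim0) (fun i => i.elim0) 1 (fun i => i.elim0)
  exact i.elim0

/-- The numbers of low complexity in a finite family: subfamilies with a joint measure are excluded. -/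
theorem low_family {κ : Type} [Fintype κ] [DecidableEq κ] (u : κ → ℝ) (Dep : Finset κ → Prop)
    (hDep : ∀ J, Dep J → JointM (fun i : J => u i)) (h0 : ¬ Dep ∅) (r : ℕ) : ∃ A : ℝ, 1 ≤ A ∧
    ∀ b : κ → ℕ, (∀ i, 2 ≤ b i) → ∀ K L : κ → ℕ, ∀ M : ℝ, (∀ i, M ≤ L i * Real.log (b i)) →
      ∀ J : Finset κ, (∀ i ∈ J, A ^ (∑ i, K i + 1) *
        ((complexity (b i) (u i) r (K i) (L i) + 1) * Real.log (b i)) < M) → ¬ Dep J := by
  classical
  have h1 : ∀ J : Finset κ, ∃ A : ℝ, 1 ≤ A ∧ (Dep J → ∀ b : J → ℕ, (∀ i, 2 ≤ b i) → ∀ K L : J → ℕ, ∀ M : ℝ,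
      (∀ i, M ≤ L i * Real.log (b i)) →
      M ≤ A ^ (∑ i, K i + 1) * ∑ i : J, (complexity (b i) (u i) r (K i) (L i) + 1) * Real.log (b i)) := by
    intro J
    by_cases hJ : Dep J
    · obtain ⟨A, hA, h⟩ := digitsM (fun i : J => u i) (hDep J hJ) r
      exact ⟨A, hA, fun _ => h⟩
    · exact ⟨1, le_rfl, fun h => absurd h hJ⟩
  choose A hA h using h1
  obtain ⟨n, hn⟩ : ∃ n : ℝ, n = Fintype.card κ := ⟨_, rfl⟩
  have hn0 : 0 ≤ n := by rw [hn]; positivity
  obtain ⟨B, hB⟩ : ∃ B : ℝ, B = ∑ J, A J := ⟨_, rfl⟩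
  have hBJ : ∀ J, A J ≤ B := fun J => by
    rw [hB]; exact Finset.single_le_sum (f := A) (fun j _ => (by linarith [hA j] : 0 ≤ A j)) (Finset.mem_univ J)
  have hB1 : 1 ≤ B := (hA ∅).trans (hBJ ∅)
  refine ⟨(n + 1) * B, by nlinarith, ?_⟩
  intro b hb K L M hM J hJ hdep
  have hmain := h J hdep (fun i => b i) (fun i => hb i) (fun i => K i) (fun i => L i) M (fun i => hM i)
  have e1 : ∑ i : J, K i = ∑ i ∈ J, K i := Finset.sum_coe_sort J K
  have e2 : ∑ i : J, ((complexity (b i) (u i) r (K i) (L i) : ℝ) + 1) * Real.log (b i) =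
      ∑ i ∈ J, ((complexity (b i) (u i) r (K i) (L i) : ℝ) + 1) * Real.log (b i) :=
    Finset.sum_coe_sort J (fun i => ((complexity (b i) (u i) r (K i) (L i) : ℝ) + 1) * Real.log (b i))
  rw [e1, e2] at hmain
  have hKle : ∑ i ∈ J, K i ≤ ∑ i, K i := Finset.sum_le_sum_of_subset (Finset.subset_univ _)
  obtain ⟨k, hk⟩ : ∃ k, k = ∑ i, K i := ⟨_, rfl⟩
  rw [← hk] at hJ hKle
  have hA0 : A J ^ (∑ i ∈ J, K i + 1) ≤ B ^ (k + 1) :=
    (pow_le_pow_right₀ (hA J) (by omega)).trans (pow_le_pow_left₀ (by linarith [hA J]) (hBJ J) _)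
  have hterm : ∀ i, 0 ≤ ((complexity (b i) (u i) r (K i) (L i) : ℝ) + 1) * Real.log (b i) := fun i => by
    have := half_lt_log (hb i)
    positivity
  have h2 : M ≤ B ^ (k + 1) * ∑ i ∈ J, ((complexity (b i) (u i) r (K i) (L i) : ℝ) + 1) * Real.log (b i) :=
    hmain.trans (mul_le_mul_of_nonneg_right hA0 (Finset.sum_nonneg fun i _ => hterm i))
  have hne : J.Nonempty := by
    rw [Finset.nonempty_iff_ne_empty]
    rintro rfl
    exact h0 hdep
  obtain ⟨i₀, hi₀⟩ := hne
  have hM0 : 0 < M := lt_of_le_of_lt (mul_nonneg (by positivity) (hterm i₀)) (hJ i₀ hi₀)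
  have h3 : (n + 1) * (B ^ (k + 1) * ∑ i ∈ J, ((complexity (b i) (u i) r (K i) (L i) : ℝ) + 1) * Real.log (b i)) ≤
      n * M := by
    have h4 : (n + 1) * B ^ (k + 1) ≤ ((n + 1) * B) ^ (k + 1) := by
      rw [mul_pow]
      exact mul_le_mul_of_nonneg_right (le_self_pow₀ (by linarith) (by omega)) (by positivity)
    calc (n + 1) * (B ^ (k + 1) * ∑ i ∈ J, ((complexity (b i) (u i) r (K i) (L i) : ℝ) + 1) * Real.log (b i))
        = (n + 1) * B ^ (k + 1) * ∑ i ∈ J, ((complexity (b i) (u i) r (K i) (L i) : ℝ) + 1) * Real.log (b i) := by ring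
      _ ≤ ((n + 1) * B) ^ (k + 1) * ∑ i ∈ J, ((complexity (b i) (u i) r (K i) (L i) : ℝ) + 1) * Real.log (b i) :=
          mul_le_mul_of_nonneg_right h4 (Finset.sum_nonneg fun i _ => hterm i)
      _ = ∑ i ∈ J, ((n + 1) * B) ^ (k + 1) * (((complexity (b i) (u i) r (K i) (L i) : ℝ) + 1) * Real.log (b i)) := by
          rw [Finset.mul_sum]
      _ ≤ ∑ _i ∈ J, M := Finset.sum_le_sum fun i hi => (hJ i hi).le
      _ = J.card * M := by rw [Finset.sum_const, nsmul_eq_mul]
      _ ≤ n * M := by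
          refine mul_le_mul_of_nonneg_right ?_ hM0.le
          rw [hn]
          exact_mod_cast Finset.card_le_univ J
  have h5 : (n + 1) * M ≤ n * M := (mul_le_mul_of_nonneg_left h2 (by linarith)).trans h3
  linarith

/-- **The field of the numbers of low complexity.** -/
theorem low_field {κ : Type} [Fintype κ] [DecidableEq κ] (x : ℝ) (hx : MeasT (x : ℂ)) (u : κ → ℝ) (r : ℕ) :
    ∃ A : ℝ, 1 ≤ A ∧
    ∀ b : κ → ℕ, (∀ i, 2 ≤ b i) → ∀ K L : κ → ℕ, ∀ M : ℝ, (∀ i, M ≤ L i * Real.log (b i)) →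
      ∀ J : Finset κ, (∀ i ∈ J, A ^ (∑ i, K i + 1) *
        ((complexity (b i) (u i) r (K i) (L i) + 1) * Real.log (b i)) < M) →
        Transcendental (IntermediateField.adjoin ℚ (u '' J)) x := by
  obtain ⟨A, hA, h⟩ := low_family u (fun J => IsAlgebraic (IntermediateField.adjoin ℚ (u '' J)) x) (fun J hJ => by
    have h1 : u '' (J : Set κ) = Set.range (fun i : J => u i) := by
      ext y
      simp
    rw [h1] at hJ
    exact jointM_of_field x hx _ hJ) (by
      intro h
      rw [Finset.coe_empty, Set.image_empty] at h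
      exact not_alg_empty x hx (alg_int_of_field _ x h)) r
  exact ⟨A, hA, fun b hb K L M hM J hJ => h b hb K L M hM J hJ⟩

end Pool.Agent.Run7.h168.Mult
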