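import Pool.Agent.Run7.h168.Mult.Elim

/-!
# Several numbers over which a tuple with a measure of algebraic independence becomes dependent
-/

set_option autoImplicit false

namespace Pool.Agent.Run7.h168.Mult

open Polynomial Finset Pool.Agent.R356 Pool.Agent.N743.SS

/-- joint transcendence measure of several numbers -/
def JointM {κ : Type} (u : κ → ℝ) : Prop :=
  ∀ D : ℕ, ∃ r C : ℝ, 0 < r ∧ 0 < C ∧ ∀ P : κ → ℤ[X], (∀ i, P i ≠ 0) → (∀ i, (P i).natDegree ≤ D) →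
    ∀ H : ℝ, (∀ i k, |(((P i).coeff k : ℤ) : ℝ)| ≤ H) → ∃ i, C * H ^ (-r) ≤ |aeval (u i) (P i)|

lemma JointM.comp {κ κ' : Type} {u : κ → ℝ} (h : JointM u) (e : κ ≃ κ') : JointM (u ∘ e.symm) := by
  intro D
  obtain ⟨r, C, hr, hC, hj⟩ := h D
  refine ⟨r, C, hr, hC, fun P hP hD H hH => ?_⟩
  obtain ⟨i, hi⟩ := hj (fun i => P (e i)) (fun i => hP _) (fun i => hD _) H (fun i k => hH _ _)
  exact ⟨e i, by simpa using hi⟩

lemma root_near (u : ℂ) (P : ℤ[X]) (hP : P ≠ 0) (D : ℕ) (hD : P.natDegree ≤ D) (δ : ℝ) (hδ : 0 < δ) (hδ1 : δ ≤ 1)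
    (h : ‖aeval u P‖ < δ ^ D) : ∃ α : ℂ, aeval α P = 0 ∧ ‖u - α‖ < δ := by
  by_contra hcon
  push Not at hcon
  have hinj : Function.Injective (Int.castRingHom ℂ) := Int.cast_injective
  obtain ⟨p, hp⟩ : ∃ p : ℂ[X], p = P.map (Int.castRingHom ℂ) := ⟨_, rfl⟩
  have hp0 : p ≠ 0 := by rw [hp]; exact (Polynomial.map_ne_zero_iff hinj).2 hP
  have hdeg : p.natDegree = P.natDegree := by rw [hp, natDegree_map_eq_of_injective hinj]
  have h1 : aeval u P = p.eval u := by rw [hp, eval_map, aeval_def]; rfl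
  rw [h1, (IsAlgClosed.splits p).eval_eq_prod_roots, norm_mul] at h
  have h2 : (1 : ℝ) ≤ ‖p.leadingCoeff‖ := by
    rw [hp, leadingCoeff_map_of_injective hinj, eq_intCast, Complex.norm_intCast]
    exact_mod_cast Int.one_le_abs (leadingCoeff_ne_zero.2 hP)
  have h3 : ∀ s : Multiset ℂ, (∀ z ∈ s, z ∈ p.roots) → δ ^ s.card ≤ ‖(s.map fun a => u - a).prod‖ := by
    intro s
    induction s using Multiset.induction_on with
    | empty => intro _; simp
    | cons z s ih =>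
      intro hs
      rw [Multiset.map_cons, Multiset.prod_cons, norm_mul, Multiset.card_cons, pow_succ, mul_comm]
      refine mul_le_mul (hcon z ?_) (ih fun w hw => hs w (Multiset.mem_cons_of_mem hw)) (by positivity) (norm_nonneg _)
      have h4 := hs z (Multiset.mem_cons_self _ _)
      rw [mem_roots hp0, IsRoot.def, hp, eval_map] at h4
      rw [aeval_def]
      exact h4
  have h4 := h3 p.roots (fun z hz => hz)
  have h5 : p.roots.card ≤ D := (card_roots' p).trans (by omega)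
  have h6 : δ ^ D ≤ δ ^ p.roots.card := pow_le_pow_of_le_one hδ.le hδ1 h5
  have h7 : δ ^ D ≤ ‖p.leadingCoeff‖ * ‖(p.roots.map fun a => u - a).prod‖ :=
    (h6.trans h4).trans (le_mul_of_one_le_left (norm_nonneg _) h2)
  linarith

/-- the lowest coefficient of a polynomial with a small root -/
lemma trailing {A : Type} [CommRing A] {ℓ : A → ℝ} (hℓ : IsLen ℓ) (φ : A →+* ℂ) (hφ : ∀ z, ‖φ z‖ ≤ ℓ z)
    (N : A[X]) (η : ℂ) (hη : η ≠ 0) (hη1 : ‖η‖ ≤ 1) (h : eval₂RingHom φ η N = 0) :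
    ‖φ (N.coeff N.natTrailingDegree)‖ ≤ ‖η‖ * len ℓ N := by
  classical
  obtain ⟨b, hb⟩ : ∃ b, b = N.natTrailingDegree := ⟨_, rfl⟩
  rw [← hb]
  by_cases hN : N = 0
  · rw [hN]; simp [len]
  have hbs : b ∈ N.support := by rw [hb]; exact natTrailingDegree_mem_support_of_nonzero hN
  rw [coe_eval₂RingHom, eval₂_eq_sum, sum_def, ← Finset.add_sum_erase _ _ hbs] at h
  have h1 : φ (N.coeff b) * η ^ b = -∑ j ∈ N.support.erase b, φ (N.coeff j) * η ^ j := by linear_combination h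
  have hη0 : 0 < ‖η‖ := norm_pos_iff.2 hη
  have h2 : ‖φ (N.coeff b)‖ * ‖η‖ ^ b ≤ ‖η‖ ^ (b + 1) * len ℓ N := by
    rw [← norm_pow, ← norm_mul, h1, norm_neg]
    refine (norm_sum_le _ _).trans ?_
    unfold len
    rw [Finset.mul_sum]
    refine (Finset.sum_le_sum (g := fun j => ‖η‖ ^ (b + 1) * ℓ (N.coeff j)) fun j hj => ?_).trans
      (Finset.sum_le_sum_of_subset_of_nonneg (Finset.erase_subset _ _) fun j _ _ =>
        mul_nonneg (by positivity) (hℓ.nonneg _))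
    rw [Finset.mem_erase] at hj
    have h3 : b < j := lt_of_le_of_ne (by rw [hb]; exact natTrailingDegree_le_of_mem_supp j hj.2) (Ne.symm hj.1)
    rw [norm_mul, norm_pow, mul_comm]
    exact mul_le_mul (pow_le_pow_of_le_one hη0.le hη1 h3) (hφ _) (norm_nonneg _) (by positivity)
  have h3 : ‖φ (N.coeff b)‖ * ‖η‖ ^ b ≤ (‖η‖ * len ℓ N) * ‖η‖ ^ b := by
    calc _ ≤ ‖η‖ ^ (b + 1) * len ℓ N := h2
      _ = _ := by ring
  exact le_of_mul_le_mul_right h3 (by positivity)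

lemma algInd {ι : Type} {x : ι → ℝ} (hx : MeasM x) : AlgebraicIndependent ℤ (fun i => ((x i : ℝ) : ℂ)) := by
  rw [algebraicIndependent_iff]
  intro P hP
  by_contra h0
  obtain ⟨r, c, hr, hc, hm⟩ := hx P.totalDegree
  obtain ⟨H, hH⟩ : ∃ H : ℝ, ∀ s, |((P.coeff s : ℤ) : ℝ)| ≤ H := by
    refine ⟨∑ s ∈ P.support, |((P.coeff s : ℤ) : ℝ)|, fun s => ?_⟩
    by_cases hs : s ∈ P.support
    · exact Finset.single_le_sum (f := fun s => |((P.coeff s : ℤ) : ℝ)|) (fun _ _ => abs_nonneg _) hs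
    · rw [MvPolynomial.notMem_support_iff.1 hs, Int.cast_zero, abs_zero]
      exact Finset.sum_nonneg fun _ _ => abs_nonneg _
  have h1 := hm P h0 le_rfl H hH
  have h2 : MvPolynomial.aeval (fun i => ((x i : ℝ) : ℂ)) P = ((MvPolynomial.aeval x P : ℝ) : ℂ) := by
    have h3 : (MvPolynomial.aeval (fun i => ((x i : ℝ) : ℂ)) : MvPolynomial ι ℤ →ₐ[ℤ] ℂ).toRingHom =
        (algebraMap ℝ ℂ).comp (MvPolynomial.aeval x : MvPolynomial ι ℤ →ₐ[ℤ] ℝ).toRingHom := by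
      refine MvPolynomial.ringHom_ext (fun r => ?_) (fun i => ?_)
      · simp
      · simp
    have h4 := congrArg (fun f : MvPolynomial ι ℤ →+* ℂ => f P) h3
    exact h4
  rw [h2] at hP
  have h3 : MvPolynomial.aeval x P = 0 := by exact_mod_cast hP
  rw [h3, abs_zero] at h1
  have hH1 := one_le_of_mcoeff h0 hH
  have : 0 < c * H ^ (-r) := by positivity
  linarith

/-- algebraic specialisations of a relation do not vanish at an algebraically independent tuple -/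
lemma spec_ne_zero {ι : Type} (xc : ι → ℂ) (hx : AlgebraicIndependent ℤ xc) {m : ℕ} {τ : Type} [Fintype τ]
    (a : τ → MvPolynomial ι ℤ) (e : τ → Fin m → ℕ) (α : Fin m → ℂ) (hα : ∀ i, IsAlgebraic ℤ (α i)) (ψ : ι → ℂ)
    (hψ : ∑ t, MvPolynomial.aeval ψ (a t) * ∏ i, α i ^ e t i ≠ 0) :
    ∑ t, MvPolynomial.aeval xc (a t) * ∏ i, α i ^ e t i ≠ 0 := by
  have hmem : ∀ i, α i ∈ algebraicClosure ℚ ℂ := fun i =>
    (mem_algebraicClosure_iff).2 ((IsFractionRing.isAlgebraic_iff ℤ ℚ ℂ).1 (hα i))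
  have hZQ : Algebra.IsAlgebraic ℤ ℚ := IsLocalization.isAlgebraic (R := ℤ) (S := ℚ) (nonZeroDivisors ℤ)
  have h1 : AlgebraicIndependent ℚ xc := hx.extendScalars ℚ
  have hQC : Algebra.IsAlgebraic ℚ (algebraicClosure ℚ ℂ) := algebraicClosure.isAlgebraic ℚ ℂ
  have h2 : AlgebraicIndependent (algebraicClosure ℚ ℂ) xc := h1.extendScalars _
  obtain ⟨G, hG⟩ : ∃ G : MvPolynomial ι (algebraicClosure ℚ ℂ), G =
    ∑ t, (a t).map (Int.castRingHom _) * MvPolynomial.C (∏ i, (⟨α i, hmem i⟩ : algebraicClosure ℚ ℂ) ^ e t i) :=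
    ⟨_, rfl⟩
  have hev : ∀ y : ι → ℂ, MvPolynomial.aeval y G = ∑ t, MvPolynomial.aeval y (a t) * ∏ i, α i ^ e t i := by
    intro y
    rw [hG, map_sum]
    refine Finset.sum_congr rfl fun t _ => ?_
    rw [map_mul, MvPolynomial.aeval_C, map_prod]
    congr 1
    rw [MvPolynomial.aeval_def, MvPolynomial.eval₂_map, MvPolynomial.aeval_def]
    congr 1
  intro h0
  apply hψ
  rw [← hev] at h0 ⊢
  rw [(algebraicIndependent_iff.1 h2) G h0, map_zero]

/-- **Several numbers.** -/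
theorem jointM_terms {ι : Type} (x : ι → ℝ) (hx : MeasM x) {m : ℕ} (u : Fin m → ℝ) {τ : Type} [Fintype τ]
    (a : τ → MvPolynomial ι ℤ) (e : τ → Fin m → ℕ)
    (hrel : ∑ t, MvPolynomial.aeval x (a t) * ∏ i, u i ^ e t i = 0) (ψ : ι → ℂ)
    (hψ : ∑ t, MvPolynomial.aeval ψ (a t) * ∏ i, ((u i : ℝ) : ℂ) ^ e t i ≠ 0) : JointM u := by
  classical
  intro D
  obtain ⟨xc, hxc⟩ : ∃ xc : ι → ℂ, xc = fun i => ((x i : ℝ) : ℂ) := ⟨_, rfl⟩
  obtain ⟨uc, huc⟩ : ∃ uc : Fin m → ℂ, uc = fun i => ((u i : ℝ) : ℂ) := ⟨_, rfl⟩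
  obtain ⟨φ₀, hφ₀⟩ : ∃ φ₀ : MvPolynomial ι ℤ →+* ℂ, φ₀ = (MvPolynomial.aeval xc : MvPolynomial ι ℤ →ₐ[ℤ] ℂ).toRingHom :=
    ⟨_, rfl⟩
  have hφv : ∀ z, φ₀ z = ((MvPolynomial.aeval x z : ℝ) : ℂ) := by
    intro z
    have h1 : φ₀ = (algebraMap ℝ ℂ).comp (MvPolynomial.aeval x : MvPolynomial ι ℤ →ₐ[ℤ] ℝ).toRingHom := by
      rw [hφ₀, hxc]
      refine MvPolynomial.ringHom_ext (fun r => ?_) (fun i => ?_)
      · simp
      · simp
    rw [h1]
    rfl
  have hφa : ∀ z, φ₀ z = MvPolynomial.aeval xc z := fun z => by rw [hφ₀]; rfl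
  -- the relation near `u`
  obtain ⟨f, hf⟩ : ∃ f : (Fin m → ℂ) → ℂ, f = fun y => ∑ t, φ₀ (a t) * ∏ i, y i ^ e t i := ⟨_, rfl⟩
  have hf0 : f uc = 0 := by
    have h1 : f uc = ((∑ t, MvPolynomial.aeval x (a t) * ∏ i, u i ^ e t i : ℝ) : ℂ) := by
      rw [hf, huc]
      push_cast
      refine Finset.sum_congr rfl fun t _ => ?_
      rw [hφv]
    rw [h1, hrel]
    simp
  have hfC : ContDiff ℝ 1 f := by
    rw [hf]
    refine ContDiff.sum fun t _ => contDiff_const.mul ?_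
    refine contDiff_prod fun i _ => ?_
    exact (contDiff_apply ℝ ℂ i).pow _
  obtain ⟨L, t₀, ht₀, hLip⟩ := (hfC.contDiffAt (x := uc)).exists_lipschitzOnWith
  obtain ⟨f', hf'⟩ : ∃ f' : (Fin m → ℂ) → ℂ, f' = fun y => ∑ t, MvPolynomial.aeval ψ (a t) * ∏ i, y i ^ e t i :=
    ⟨_, rfl⟩
  have hf'c : Continuous f' := by
    rw [hf']
    fun_prop
  have hf'0 : f' uc ≠ 0 := by rw [hf', huc]; exact hψ
  obtain ⟨r, hr0, hr1, hrt, hrf⟩ : ∃ r : ℝ, 0 < r ∧ r ≤ 1 ∧ (∀ y, ‖y - uc‖ < r → y ∈ t₀) ∧ (∀ y, ‖y - uc‖ < r → f' y ≠ 0) := by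
    obtain ⟨r₁, hr₁, h1⟩ := Metric.mem_nhds_iff.1 ht₀
    obtain ⟨r₂, hr₂, h2⟩ := Metric.mem_nhds_iff.1 (hf'c.continuousAt.eventually_ne hf'0)
    refine ⟨min 1 (min r₁ r₂), by positivity, min_le_left _ _, fun y hy => h1 ?_, fun y hy => h2 ?_⟩
    · rw [Metric.mem_ball, dist_eq_norm]
      exact hy.trans_le ((min_le_right _ _).trans (min_le_left _ _))
    · rw [Metric.mem_ball, dist_eq_norm]
      exact hy.trans_le ((min_le_right _ _).trans (min_le_right _ _))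
  -- sizes
  obtain ⟨ℓ₀, hℓ₀⟩ : ∃ ℓ₀ : MvPolynomial ι ℤ → ℝ, ℓ₀ = fun z => max (lenM z) ‖φ₀ z‖ := ⟨_, rfl⟩
  have hℓ₀L : IsLen ℓ₀ := by rw [hℓ₀]; exact isLen_max isLenM (isLen_comap φ₀)
  have hℓ₀1 : ∀ z, lenM z ≤ ℓ₀ z := fun z => by rw [hℓ₀]; exact le_max_left _ _
  have hℓ₀2 : ∀ z, ‖φ₀ z‖ ≤ ℓ₀ z := fun z => by rw [hℓ₀]; exact le_max_right _ _
  obtain ⟨T, hT⟩ : ∃ T : ℝ, T = ‖uc‖ + 1 := ⟨_, rfl⟩
  have hT1 : 1 ≤ T := by rw [hT]; linarith [norm_nonneg uc]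
  obtain ⟨E, hE1, hEe, hEa⟩ : ∃ E : ℕ, 1 ≤ E ∧ (∀ t i, e t i ≤ E) ∧ ∀ t, (a t).totalDegree ≤ E := by
    refine ⟨1 + ∑ t, (∑ i, e t i + (a t).totalDegree), by omega, fun t i => ?_, fun t => ?_⟩
    · have h1 := Finset.single_le_sum (f := fun t => ∑ i, e t i + (a t).totalDegree) (fun _ _ => Nat.zero_le _)
        (Finset.mem_univ t)
      have h2 := Finset.single_le_sum (f := fun i => e t i) (fun _ _ => Nat.zero_le _) (Finset.mem_univ i)
      omega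
    · have h1 := Finset.single_le_sum (f := fun t => ∑ i, e t i + (a t).totalDegree) (fun _ _ => Nat.zero_le _)
        (Finset.mem_univ t)
      omega
  have hfil : IsFil (degM (ι := ι)) :=
    { one := by show (1 : MvPolynomial ι ℤ).totalDegree ≤ 0; simp
      mono := fun m n hmn a (ha : a.totalDegree ≤ m) => (show a.totalDegree ≤ n from ha.trans hmn)
      mul := fun m n a b ha hb => (MvPolynomial.totalDegree_mul a b).trans (Nat.add_le_add ha hb) }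
  obtain ⟨g, C₁, hC₁, hel⟩ := elim m D E T hT1
  obtain ⟨K, hK⟩ : ∃ K : ℝ, K = 1 + ∑ t, ℓ₀ (a t) := ⟨_, rfl⟩
  have hK1 : 1 ≤ K := by
    rw [hK]
    linarith [Finset.sum_nonneg fun t (_ : t ∈ (Finset.univ : Finset τ)) => hℓ₀L.nonneg (a t)]
  obtain ⟨κ₀, c₀, hκ₀, hc₀, hmeas⟩ := hx g
  obtain ⟨L₁, hL₁⟩ : ∃ L₁ : ℝ, L₁ = (L : ℝ) + 1 := ⟨_, rfl⟩
  have hL₁1 : 1 ≤ L₁ := by rw [hL₁]; linarith [L.2]
  -- constants
  obtain ⟨W, hW⟩ : ∃ W : ℝ, W = C₁ * K ^ g := ⟨_, rfl⟩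
  have hW1 : 1 ≤ W := by rw [hW]; exact one_le_mul_of_one_le_of_one_le hC₁ (one_le_pow₀ hK1)
  obtain ⟨κ₂, hκ₂⟩ : ∃ κ₂ : ℝ, κ₂ = g * κ₀ + g + 1 := ⟨_, rfl⟩
  have hκ₂0 : 0 < κ₂ := by rw [hκ₂]; positivity
  obtain ⟨c₂, hc₂⟩ : ∃ c₂ : ℝ, c₂ = min (r / L₁) (c₀ * W ^ (-κ₀) / (2 * L₁ * W)) := ⟨_, rfl⟩
  have hc₂0 : 0 < c₂ := by rw [hc₂]; positivity
  refine ⟨κ₂ * (D + 1), c₂ ^ D / 2, by positivity, by positivity, ?_⟩
  intro P hP hPD H hPH
  by_contra hcon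
  push Not at hcon
  rcases Nat.eq_zero_or_pos m with hm0 | hmpos
  · -- no number
    subst hm0
    have h1 : MvPolynomial.aeval xc (∑ t, a t) = 0 := by
      have h2 : f uc = MvPolynomial.aeval xc (∑ t, a t) := by
        rw [hf, map_sum]
        refine Finset.sum_congr rfl fun t _ => ?_
        rw [hφa]
        simp
      rw [← h2, hf0]
    have h3 := (algebraicIndependent_iff.1 (algInd hx)) _ (by rw [← hxc]; exact h1)
    apply hψ
    have h4 : ∑ t, MvPolynomial.aeval ψ (a t) * ∏ i : Fin 0, ((u i : ℝ) : ℂ) ^ e t i = MvPolynomial.aeval ψ (∑ t, a t) := by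
      rw [map_sum]
      exact Finset.sum_congr rfl fun t _ => by simp
    rw [h4, h3, map_zero]
  have hH : 1 ≤ H := one_le_of_coeff (P ⟨0, hmpos⟩) (hP _) H (hPH _)
  have hH0 : 0 < H := by linarith
  -- the approximations
  obtain ⟨δ, hδ⟩ : ∃ δ : ℝ, δ = c₂ * H ^ (-κ₂) := ⟨_, rfl⟩
  have hHκ : H ^ (-κ₂) ≤ 1 := Real.rpow_le_one_of_one_le_of_nonpos hH (by linarith)
  have hδ0 : 0 < δ := by rw [hδ]; positivity
  have hδc : δ ≤ c₂ := by rw [hδ]; exact mul_le_of_le_one_right hc₂0.le hHκ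
  have hδr' : δ * L₁ ≤ r := by
    have h1 : δ ≤ r / L₁ := hδc.trans (by rw [hc₂]; exact min_le_left _ _)
    rwa [le_div_iff₀ (by linarith)] at h1
  have hδr : δ ≤ r := le_trans (le_mul_of_one_le_right hδ0.le hL₁1) hδr'
  have hδ1 : δ ≤ 1 := hδr.trans hr1
  have hsm : ∀ i, ‖aeval (uc i) (P i)‖ < δ ^ D := by
    intro i
    have h1 : aeval (uc i) (P i) = ((aeval (u i) (P i) : ℝ) : ℂ) := by
      rw [huc]; exact (map_aeval_int (algebraMap ℝ ℂ) (u i) (P i)).symm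
    rw [h1, Complex.norm_real, Real.norm_eq_abs]
    refine (hcon i).trans_le ?_
    rw [hδ, mul_pow]
    have h2 : H ^ (-(κ₂ * (D + 1))) ≤ (H ^ (-κ₂)) ^ D := by
      rw [← Real.rpow_natCast, ← Real.rpow_mul hH0.le]
      refine Real.rpow_le_rpow_of_exponent_le hH ?_
      nlinarith
    have h3 : c₂ ^ D / 2 ≤ c₂ ^ D := by
      have : 0 < c₂ ^ D := by positivity
      linarith
    exact mul_le_mul h3 h2 (by positivity) (by positivity)
  choose α hα0 hαu using fun i => root_near (uc i) (P i) (hP i) D (hPD i) δ hδ0 hδ1 (hsm i)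
  have hαu' : ‖α - uc‖ < δ := by
    rw [pi_norm_lt_iff hδ0]
    intro i
    rw [Pi.sub_apply, norm_sub_rev]
    exact hαu i
  have hαr : ‖α - uc‖ < r := hαu'.trans_le hδr
  have hαT : ∀ i, ‖α i‖ ≤ T := by
    intro i
    have h1 : ‖α i‖ ≤ ‖α‖ := norm_le_pi_norm α i
    have h2 : ‖α‖ ≤ ‖α - uc‖ + ‖uc‖ := by
      have := norm_add_le (α - uc) uc
      rwa [sub_add_cancel] at this
    rw [hT]; linarith
  have hαalg : ∀ i, IsAlgebraic ℤ (α i) := fun i => ⟨P i, hP i, hα0 i⟩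
  obtain ⟨η, hη⟩ : ∃ η : ℂ, η = f α := ⟨_, rfl⟩
  have hη0 : η ≠ 0 := by
    rw [hη, hf]
    have h1 := spec_ne_zero xc (by rw [hxc]; exact algInd hx) a e α hαalg ψ (by
      have := hrf α hαr
      rwa [hf'] at this)
    simp only [hφa]
    exact h1
  have hηle : ‖η‖ ≤ L₁ * δ := by
    have h1 := hLip.dist_le_mul α (hrt α hαr) uc (hrt uc (by simpa using hr0))
    rw [hf0, dist_eq_norm, dist_eq_norm, sub_zero, ← hη] at h1
    have h2 : (L : ℝ) * ‖α - uc‖ ≤ L₁ * δ := by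
      rw [hL₁]
      exact mul_le_mul (by linarith) hαu'.le (norm_nonneg _) (by positivity)
    exact h1.trans h2
  have hη1 : ‖η‖ ≤ 1 := hηle.trans (by rw [mul_comm]; exact hδr'.trans hr1)
  -- elimination
  obtain ⟨φ, hφ⟩ : ∃ φ : (MvPolynomial ι ℤ)[X] →+* ℂ, φ = eval₂RingHom φ₀ η := ⟨_, rfl⟩
  obtain ⟨ℓ, hℓ⟩ : ∃ ℓ : (MvPolynomial ι ℤ)[X] → ℝ, ℓ = fun z => max (len ℓ₀ z) ‖φ z‖ := ⟨_, rfl⟩
  have hℓL : IsLen ℓ := by rw [hℓ]; exact isLen_max hℓ₀L.poly (isLen_comap φ)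
  have hℓ1 : ∀ z, len ℓ₀ z ≤ ℓ z := fun z => by rw [hℓ]; exact le_max_left _ _
  have hℓ2 : ∀ z, ‖φ z‖ ≤ ℓ z := fun z => by rw [hℓ]; exact le_max_right _ _
  obtain ⟨a', ha'⟩ : ∃ a' : Option τ → (MvPolynomial ι ℤ)[X], a' = fun o => o.elim X (fun t => -C (a t)) := ⟨_, rfl⟩
  obtain ⟨e', he'⟩ : ∃ e' : Option τ → Fin m → ℕ, e' = fun o => o.elim 0 (fun t => e t) := ⟨_, rfl⟩
  have hval : ∀ (σ : MvPolynomial ι ℤ →+* ℂ) (z : ℂ) (y : Fin m → ℂ),
      ∑ o, eval₂RingHom σ z (a' o) * ∏ i, y i ^ e' o i = z - ∑ t, σ (a t) * ∏ i, y i ^ e t i := by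
    intro σ z y
    rw [Fintype.sum_option, ha', he']
    simp only [Option.elim_none, Option.elim_some, coe_eval₂RingHom, eval₂_X, eval₂_neg, eval₂_C, Pi.zero_apply,
      pow_zero, Finset.prod_const_one, mul_one, neg_mul, Finset.sum_neg_distrib]
    ring
  obtain ⟨Y, hY⟩ : ∃ Y : ℝ, Y = K * H := ⟨_, rfl⟩
  have hY1 : 1 ≤ Y := by rw [hY]; exact one_le_mul_of_one_le_of_one_le hK1 hH
  obtain ⟨N, hNf, hNl, hNs, hNn⟩ := hel (MvPolynomial ι ℤ)[X] ℓ (filX degM) φ hℓL hℓ2 hfil.poly (Option τ) a' e'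
    (fun o i => by
      rw [he']
      cases o with
      | none => exact Nat.zero_le _
      | some t => exact hEe t i)
    (fun o => by
      rw [ha']
      cases o with
      | none =>
        refine ⟨natDegree_X_le.trans hE1, fun j => ?_⟩
        show (X : (MvPolynomial ι ℤ)[X]).coeff j ∈ degM E
        rw [coeff_X]
        split_ifs
        · exact hfil.mono 0 E (Nat.zero_le _) hfil.one
        · exact (degM E).zero_mem
      | some t =>
        refine (filX degM E).neg_mem ⟨by simp, fun j => ?_⟩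
        rw [coeff_C]
        split_ifs
        · exact hEa t
        · exact (degM E).zero_mem)
    P hP hPD Y hY1 (by
      rw [Fintype.sum_option]
      have h1 : ℓ (a' none) ≤ 1 := by
        rw [hℓ, ha', hφ]
        refine max_le ?_ ?_
        · show len ℓ₀ X ≤ 1
          rw [len_eq hℓ₀L _ 2 (lt_of_le_of_lt natDegree_X_le (by norm_num)), Finset.sum_range_succ,
            Finset.sum_range_one, coeff_X_zero, coeff_X_one, hℓ₀L.zero, zero_add]
          exact hℓ₀L.one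
        · show ‖eval₂RingHom φ₀ η X‖ ≤ 1
          rw [coe_eval₂RingHom, eval₂_X]; exact hη1
      have h2 : ∀ t, ℓ (a' (some t)) ≤ ℓ₀ (a t) := by
        intro t
        rw [hℓ, ha', hφ]
        refine max_le ?_ ?_
        · show len ℓ₀ (-C (a t)) ≤ _
          rw [hℓ₀L.poly.neg, len_C hℓ₀L]
        · show ‖eval₂RingHom φ₀ η (-C (a t))‖ ≤ _
          rw [coe_eval₂RingHom, eval₂_neg, eval₂_C, norm_neg]; exact hℓ₀2 _
      calc ℓ (a' none) + ∑ t, ℓ (a' (some t)) ≤ 1 + ∑ t, ℓ₀ (a t) :=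
            add_le_add h1 (Finset.sum_le_sum fun t _ => h2 t)
        _ = K := hK.symm
        _ ≤ Y := by rw [hY]; exact le_mul_of_one_le_right (by linarith) hH)
    (fun i k => (hPH i k).trans (by rw [hY]; exact le_mul_of_one_le_left hH0.le hK1)) α hαT
  have hN0 : φ N = 0 := by
    have h1 := hNs 0 (by
      rw [hφ, hval φ₀ η α, hη, hf, sub_self, norm_zero]) (fun i => by rw [hα0 i, norm_zero])
    rw [mul_zero] at h1
    exact norm_le_zero_iff.1 h1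
  have hNne : N ≠ 0 := by
    -- a value outside of a finite set
    have hfin : {β : Fin m → ℂ | ∀ i, aeval (β i) (P i) = 0}.Finite := by
      have h1 : {β : Fin m → ℂ | ∀ i, aeval (β i) (P i) = 0} =
          Set.pi Set.univ (fun i => {z : ℂ | aeval z (P i) = 0}) := by
        ext β; simp
      rw [h1]
      refine Set.Finite.pi fun i => ?_
      have hinj : Function.Injective (Int.castRingHom ℂ) := Int.cast_injective
      refine (Multiset.finite_toSet ((P i).map (Int.castRingHom ℂ)).roots).subset fun z hz => ?_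
      show z ∈ ((P i).map (Int.castRingHom ℂ)).roots
      rw [mem_roots ((Polynomial.map_ne_zero_iff hinj).2 (hP i)), IsRoot.def, eval_map]
      have hz' : aeval z (P i) = 0 := hz
      rw [aeval_def] at hz'
      exact hz'
    obtain ⟨z, hz⟩ := (hfin.image f).infinite_compl.nonempty
    have h1 := hNn (eval₂RingHom φ₀ z) fun β hβ => by
      rw [hval φ₀ z β]
      intro h0
      apply hz
      refine ⟨β, hβ, ?_⟩
      rw [hf]
      exact (sub_eq_zero.1 h0).symm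
    rintro rfl
    exact h1 (map_zero _)
  have htr := trailing hℓ₀L φ₀ hℓ₀2 N η hη0 hη1 (by rw [← hφ]; exact hN0)
  have hb0 : N.coeff N.natTrailingDegree ≠ 0 := trailingCoeff_nonzero_iff_nonzero.2 hNne
  have hlenN : len ℓ₀ N ≤ W * H ^ g := by
    refine (hℓ1 N).trans (hNl.trans (le_of_eq ?_))
    rw [hW, hY, mul_pow]; ring
  have hlow := hmeas _ hb0 (hNf.2 _) (W * H ^ g) fun s =>
    (le_lenM _ s).trans ((hℓ₀1 _).trans ((le_len hℓ₀L N _).trans hlenN))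
  have hup : |MvPolynomial.aeval x (N.coeff N.natTrailingDegree)| ≤ L₁ * δ * (W * H ^ g) := by
    have h1 : ‖φ₀ (N.coeff N.natTrailingDegree)‖ = |MvPolynomial.aeval x (N.coeff N.natTrailingDegree)| := by
      rw [hφv, Complex.norm_real, Real.norm_eq_abs]
    rw [← h1]
    exact htr.trans (mul_le_mul hηle hlenN (hℓ₀L.poly.nonneg _) (by positivity))
  have hfin := hlow.trans hup
  -- contradiction
  have e1 : (W * H ^ g) ^ (-κ₀) = W ^ (-κ₀) * H ^ (-(g * κ₀ : ℝ)) := by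
    rw [Real.mul_rpow (by linarith) (by positivity), ← Real.rpow_natCast H g, ← Real.rpow_mul hH0.le]
    congr 2
    ring
  have e2 : L₁ * δ * (W * H ^ g) ≤ (c₀ * W ^ (-κ₀) / 2) * H ^ (-(g * κ₀ : ℝ)) := by
    have h1 : δ ≤ c₀ * W ^ (-κ₀) / (2 * L₁ * W) * H ^ (-κ₂) := by
      rw [hδ, hc₂]
      exact mul_le_mul_of_nonneg_right (min_le_right _ _) (by positivity)
    have h2 : H ^ (-κ₂) * H ^ g ≤ H ^ (-(g * κ₀ : ℝ)) := by
      rw [← Real.rpow_natCast H g, ← Real.rpow_add hH0]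
      refine Real.rpow_le_rpow_of_exponent_le hH ?_
      rw [hκ₂]; linarith
    calc L₁ * δ * (W * H ^ g) ≤ L₁ * (c₀ * W ^ (-κ₀) / (2 * L₁ * W) * H ^ (-κ₂)) * (W * H ^ g) := by
          gcongr
      _ = (c₀ * W ^ (-κ₀) / 2) * (H ^ (-κ₂) * H ^ g) := by
          field_simp
      _ ≤ _ := mul_le_mul_of_nonneg_left h2 (by positivity)
  rw [e1] at hfin
  have h3 : 0 < c₀ * W ^ (-κ₀) * H ^ (-(g * κ₀ : ℝ)) := by positivity
  have h4 : c₀ * (W ^ (-κ₀) * H ^ (-(g * κ₀ : ℝ))) ≤ (c₀ * W ^ (-κ₀) / 2) * H ^ (-(g * κ₀ : ℝ)) := hfin.trans e2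
  linarith

end Pool.Agent.Run7.h168.Mult
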