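import Pool.Agent.N743.SS.Pair2

/-!
# Elimination of several algebraic numbers from a polynomial relation, with sizes
-/

set_option autoImplicit false

namespace Pool.Agent.Run7.h168.Mult

open Polynomial Finset Pool.Agent.R356 Pool.Agent.N743.SS

/-- a filtration of a ring -/
structure IsFil {A : Type} [CommRing A] (fil : ℕ → AddSubgroup A) : Prop where
  one : (1 : A) ∈ fil 0
  mono : ∀ m n, m ≤ n → fil m ≤ fil n
  mul : ∀ m n a b, a ∈ fil m → b ∈ fil n → a * b ∈ fil (m + n)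

/-- the filtration of the polynomial ring by the degree and the filtration of the coefficients -/
def filX {A : Type} [CommRing A] (fil : ℕ → AddSubgroup A) (n : ℕ) : AddSubgroup A[X] where
  carrier := {F | F.natDegree ≤ n ∧ ∀ j, F.coeff j ∈ fil n}
  add_mem' {a b} ha hb := ⟨(natDegree_add_le _ _).trans (max_le ha.1 hb.1), fun j => by
    rw [coeff_add]; exact (fil n).add_mem (ha.2 j) (hb.2 j)⟩
  zero_mem' := ⟨by simp, fun j => by rw [coeff_zero]; exact (fil n).zero_mem⟩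
  neg_mem' {a} ha := ⟨by rw [natDegree_neg]; exact ha.1, fun j => by
    rw [coeff_neg]; exact (fil n).neg_mem (ha.2 j)⟩

lemma mem_filX {A : Type} [CommRing A] {fil : ℕ → AddSubgroup A} {n : ℕ} {F : A[X]} :
    F ∈ filX fil n ↔ F.natDegree ≤ n ∧ ∀ j, F.coeff j ∈ fil n := Iff.rfl

lemma IsFil.poly {A : Type} [CommRing A] {fil : ℕ → AddSubgroup A} (h : IsFil fil) : IsFil (filX fil) where
  one := ⟨by simp, fun j => by
    rw [coeff_one]
    split_ifs
    · exact h.one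
    · exact (fil 0).zero_mem⟩
  mono m n hmn a ha := ⟨ha.1.trans hmn, fun j => h.mono m n hmn (ha.2 j)⟩
  mul m n a b ha hb := ⟨natDegree_mul_le.trans (Nat.add_le_add ha.1 hb.1), fun j => by
    rw [coeff_mul]
    exact sum_mem fun p _ => h.mul m n _ _ (ha.2 _) (hb.2 _)⟩

/-- elimination of one number -/
lemma step {A : Type} [CommRing A] {ℓ : A → ℝ} (hℓ : IsLen ℓ) {fil : ℕ → AddSubgroup A} (hfil : IsFil fil)
    (φ : A →+* ℂ) (hφ : ∀ z, ‖φ z‖ ≤ ℓ z) (D l s : ℕ) (hs : s = D + (l + 1)) (T : ℝ) (hT : 1 ≤ T) (G : A[X])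
    (hGd : G.natDegree ≤ l) (e : ℕ) (hGf : ∀ j, G.coeff j ∈ fil e) (Q : ℤ[X]) (hQ : Q ≠ 0)
    (hQD : Q.natDegree ≤ D) (B : ℝ) (hB : 1 ≤ B) (hQB : ∀ k, |((Q.coeff k : ℤ) : ℝ)| ≤ B)
    (hGB : ∀ j, ℓ (G.coeff j) ≤ B) (v : ℂ) (hv : ‖v‖ ≤ T) :
    ∃ N : A, N ∈ fil (s * e) ∧ ℓ N ≤ s.factorial * B ^ s ∧
      (∀ ε, ‖eval₂RingHom φ v G‖ ≤ ε → ‖aeval v Q‖ ≤ ε → ‖φ N‖ ≤ s * T ^ s * (s.factorial * B ^ s) * ε) ∧
      ∀ ρ : A →+* ℂ, (∀ α : ℂ, aeval α Q = 0 → eval₂RingHom ρ α G ≠ 0) → ρ N ≠ 0 := by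
  obtain ⟨m, hm⟩ : ∃ m, m = Q.natDegree := ⟨_, rfl⟩
  have hms : m + (l + 1) ≤ s := by omega
  have hmap : ∀ ρ : A →+* ℂ, (Q.map (Int.castRingHom A)).map ρ = Q.map (Int.castRingHom ℂ) := by
    intro ρ
    rw [Polynomial.map_map]
    congr 1
    exact RingHom.ext_int _ _
  have hinj : Function.Injective (Int.castRingHom ℂ) := Int.cast_injective
  refine ⟨resultant (Q.map (Int.castRingHom A)) G m (l + 1), ?_, ?_, ?_, ?_⟩
  · have h1 := filt_res fil hfil.one hfil.mono hfil.mul Q G m (l + 1) e hGf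
    exact hfil.mono _ _ (Nat.mul_le_mul_right _ hms) h1
  · refine (len_res hℓ Q G m (l + 1) B hQB hGB).trans ?_
    have h1 : (((m + (l + 1)).factorial : ℕ) : ℝ) ≤ s.factorial := by exact_mod_cast Nat.factorial_le hms
    have h2 : B ^ (m + (l + 1)) ≤ B ^ s := pow_le_pow_right₀ hB hms
    exact mul_le_mul h1 h2 (by positivity) (by positivity)
  · intro ε h1 h2
    have hε0 : 0 ≤ ε := (norm_nonneg _).trans h1
    rw [← resultant_map_map, hmap]
    refine (res_small Q (G.map φ) m (l + 1) hm.ge (natDegree_map_le.trans (by omega)) (by omega) B T ε hB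
      hQB (fun i => ?_) v hT hv h2 ?_).trans ?_
    · rw [coeff_map]
      exact (hφ _).trans (hGB i)
    · rw [eval_map]
      exact h1
    · have h5 : (((m + (l + 1)).factorial : ℕ) : ℝ) ≤ s.factorial := by exact_mod_cast Nat.factorial_le hms
      have h6 : B ^ (m + (l + 1)) ≤ B ^ s := pow_le_pow_right₀ hB hms
      have h7 : T ^ (m + (l + 1)) ≤ T ^ s := pow_le_pow_right₀ hT hms
      have h8 : ((m : ℝ) + ((l + 1 : ℕ) : ℝ)) ≤ s := by exact_mod_cast hms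
      calc ((m : ℝ) + ((l + 1 : ℕ) : ℝ)) * (T ^ (m + (l + 1)) * ε) *
            ((((m + (l + 1)).factorial : ℕ) : ℝ) * B ^ (m + (l + 1)))
          ≤ s * (T ^ s * ε) * (s.factorial * B ^ s) := by gcongr
        _ = _ := by ring
  · intro ρ h h0
    have h1 : resultant (Q.map (Int.castRingHom ℂ)) (G.map ρ) m (l + 1) = 0 := by
      rw [← hmap ρ, resultant_map_map, h0]
    rw [hm] at h1
    refine res_ne_zero Q hQ (G.map ρ) (l + 1) (natDegree_map_le.trans (by omega)) (fun β hβ => ?_) h1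
    rw [mem_roots ((Polynomial.map_ne_zero_iff hinj).2 hQ), IsRoot.def, eval_map] at hβ
    rw [eval_map]
    exact h β (by rw [aeval_def]; exact hβ)

/-- **Elimination of several numbers.** -/
theorem elim (m : ℕ) : ∀ (D E : ℕ) (T : ℝ), 1 ≤ T → ∃ (g : ℕ) (C : ℝ), 1 ≤ C ∧
    ∀ (A : Type) [CommRing A] (ℓ : A → ℝ) (fil : ℕ → AddSubgroup A) (φ : A →+* ℂ), IsLen ℓ →
    (∀ z, ‖φ z‖ ≤ ℓ z) → IsFil fil → ∀ (τ : Type) [Fintype τ] (a : τ → A) (e : τ → Fin m → ℕ),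
    (∀ t i, e t i ≤ E) → (∀ t, a t ∈ fil E) → ∀ P : Fin m → ℤ[X], (∀ i, P i ≠ 0) →
    (∀ i, (P i).natDegree ≤ D) → ∀ Y : ℝ, 1 ≤ Y → ∑ t, ℓ (a t) ≤ Y →
    (∀ i k, |(((P i).coeff k : ℤ) : ℝ)| ≤ Y) → ∀ u : Fin m → ℂ, (∀ i, ‖u i‖ ≤ T) →
    ∃ N : A, N ∈ fil g ∧ ℓ N ≤ C * Y ^ g ∧
      (∀ ε, ‖∑ t, φ (a t) * ∏ i, u i ^ e t i‖ ≤ ε → (∀ i, ‖aeval (u i) (P i)‖ ≤ ε) →
        ‖φ N‖ ≤ C * Y ^ g * ε) ∧
      ∀ ρ : A →+* ℂ, (∀ α : Fin m → ℂ, (∀ i, aeval (α i) (P i) = 0) →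
        ∑ t, ρ (a t) * ∏ i, α i ^ e t i ≠ 0) → ρ N ≠ 0 := by
  induction m with
  | zero =>
    intro D E T hT
    refine ⟨E + 1, 1, le_rfl, ?_⟩
    intro A _ ℓ fil φ hℓ hφ hfil τ _ a e he ha P hP hPD Y hY hYa hYP u hu
    refine ⟨∑ t, a t, ?_, ?_, ?_, ?_⟩
    · exact hfil.mono E (E + 1) (Nat.le_succ _) (sum_mem fun t _ => ha t)
    · refine (hℓ.sum _ _).trans (hYa.trans ?_)
      rw [one_mul]
      exact le_self_pow₀ hY (by omega)
    · intro ε h1 _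
      rw [map_sum]
      simp only [Finset.univ_eq_empty, Finset.prod_empty, mul_one] at h1
      have h2 : 1 ≤ 1 * Y ^ (E + 1) := by rw [one_mul]; exact one_le_pow₀ hY
      have hε0 : 0 ≤ ε := (norm_nonneg _).trans h1
      exact h1.trans (le_mul_of_one_le_left hε0 h2)
    · intro ρ h
      have h1 := h (fun i => i.elim0) (fun i => i.elim0)
      simp only [Finset.univ_eq_empty, Finset.prod_empty, mul_one] at h1
      rw [map_sum]
      exact h1
  | succ m ih =>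
    intro D E T hT
    obtain ⟨g₁, C₁, hC₁, hind⟩ := ih D E T hT
    obtain ⟨s, hs⟩ : ∃ s, s = D + (g₁ + 1) := ⟨_, rfl⟩
    have hTE : 1 ≤ T ^ E := one_le_pow₀ hT
    -- the bound for the coefficients
    obtain ⟨C₂, hC₂⟩ : ∃ C₂ : ℝ, C₂ = C₁ * (T ^ E) ^ (g₁ + 1) := ⟨_, rfl⟩
    have hC₂1 : 1 ≤ C₂ := by rw [hC₂]; exact one_le_mul_of_one_le_of_one_le hC₁ (one_le_pow₀ hTE)
    have hfs : (1 : ℝ) ≤ s.factorial := by exact_mod_cast Nat.factorial_pos _
    have hs1 : (1 : ℝ) ≤ s := by exact_mod_cast (by omega : 1 ≤ s)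
    have hTs : 1 ≤ T ^ s := one_le_pow₀ hT
    have hC₂s : 1 ≤ C₂ ^ s := one_le_pow₀ hC₂1
    obtain ⟨C₃, hC₃⟩ : ∃ C₃ : ℝ, C₃ = s * T ^ s * (s.factorial * C₂ ^ s) * C₂ := ⟨_, rfl⟩
    have hC₃1 : 1 ≤ C₃ := by
      rw [hC₃]
      exact one_le_mul_of_one_le_of_one_le (one_le_mul_of_one_le_of_one_le
        (one_le_mul_of_one_le_of_one_le hs1 hTs) (one_le_mul_of_one_le_of_one_le hfs hC₂s)) hC₂1
    have hC₃le : s.factorial * C₂ ^ s ≤ C₃ := by
      rw [hC₃]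
      have h1 : 1 ≤ s * T ^ s := one_le_mul_of_one_le_of_one_le hs1 hTs
      have h2 : 0 ≤ s.factorial * C₂ ^ s := by positivity
      calc s.factorial * C₂ ^ s ≤ s * T ^ s * (s.factorial * C₂ ^ s) := le_mul_of_one_le_left h2 h1
        _ ≤ _ := le_mul_of_one_le_right (by positivity) hC₂1
    obtain ⟨g, hg⟩ : ∃ g : ℕ, g = s * g₁ + (g₁ + 1) * (s + 1) := ⟨_, rfl⟩
    refine ⟨g, C₃, hC₃1, ?_⟩
    intro A _ ℓ fil φ hℓ hφ hfil τ _ a e he ha P hP hPD Y hY hYa hYP u hu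
    have hY0 : 0 ≤ Y := by linarith
    -- the ring `A[X]`
    obtain ⟨φ', hφ'⟩ : ∃ φ' : A[X] →+* ℂ, φ' = eval₂RingHom φ (u 0) := ⟨_, rfl⟩
    obtain ⟨ℓ', hℓ'⟩ : ∃ ℓ' : A[X] → ℝ, ℓ' = fun z => max (len ℓ z) ‖φ' z‖ := ⟨_, rfl⟩
    have hℓ'L : IsLen ℓ' := by rw [hℓ']; exact isLen_max hℓ.poly (isLen_comap φ')
    have hφ'le : ∀ z, ‖φ' z‖ ≤ ℓ' z := fun z => by rw [hℓ']; exact le_max_right _ _
    have hlen' : ∀ z, len ℓ z ≤ ℓ' z := fun z => by rw [hℓ']; exact le_max_left _ _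
    obtain ⟨a', ha'⟩ : ∃ a' : τ → A[X], a' = fun t => C (a t) * X ^ e t 0 := ⟨_, rfl⟩
    have hcoef : ∀ t j, (a' t).coeff j = if j = e t 0 then a t else 0 := by
      intro t j
      rw [ha']
      exact coeff_C_mul_X_pow _ _ _
    have ha'fil : ∀ t, a' t ∈ filX fil E := by
      intro t
      refine ⟨?_, fun j => ?_⟩
      · rw [ha']
        exact (natDegree_C_mul_X_pow_le _ _).trans (he t 0)
      · rw [hcoef]
        split_ifs
        · exact ha t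
        · exact (fil E).zero_mem
    have ha'len : ∀ t, ℓ' (a' t) ≤ T ^ E * ℓ (a t) := by
      intro t
      have h0 := hℓ.nonneg (a t)
      rw [hℓ']
      refine max_le ?_ ?_
      · have h1 : len ℓ (a' t) ≤ ℓ (a t) := by
          rw [ha']
          refine (hℓ.poly.mul _ _).trans ?_
          rw [len_C hℓ]
          have h2 : len ℓ (X ^ e t 0 : A[X]) ≤ 1 := by
            rw [len_eq hℓ _ (e t 0 + 1) (lt_of_le_of_lt (natDegree_X_pow_le _) (Nat.lt_succ_self _)),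
              Finset.sum_eq_single (e t 0)]
            · rw [coeff_X_pow_self]; exact hℓ.one
            · intro j _ hj
              rw [coeff_X_pow, if_neg hj, hℓ.zero]
            · intro h
              exact absurd (Finset.mem_range.2 (Nat.lt_succ_self _)) h
          exact mul_le_of_le_one_right h0 h2
        exact h1.trans (le_mul_of_one_le_left h0 hTE)
      · rw [ha', hφ']
        simp only [coe_eval₂RingHom, eval₂_mul, eval₂_C, eval₂_X_pow]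
        rw [norm_mul, norm_pow, mul_comm]
        refine mul_le_mul ?_ (hφ _) (norm_nonneg _) (by positivity)
        exact (pow_le_pow_left₀ (norm_nonneg _) (hu 0) _).trans (pow_le_pow_right₀ hT (he t 0))
    obtain ⟨Y', hY'⟩ : ∃ Y' : ℝ, Y' = T ^ E * Y := ⟨_, rfl⟩
    have hYY' : Y ≤ Y' := by rw [hY']; exact le_mul_of_one_le_left hY0 hTE
    have hY'1 : 1 ≤ Y' := hY.trans hYY'
    obtain ⟨G, hGf, hGl, hGs, hGn⟩ := hind A[X] ℓ' (filX fil) φ' hℓ'L hφ'le hfil.poly τ a'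
      (fun t i => e t i.succ) (fun t i => he t _) ha'fil (fun i => P i.succ) (fun i => hP _)
      (fun i => hPD _) Y' hY'1 (by
        refine (Finset.sum_le_sum fun t _ => ha'len t).trans ?_
        rw [← Finset.mul_sum, hY']
        exact mul_le_mul_of_nonneg_left hYa (by linarith)) (fun i k => (hYP _ _).trans hYY')
      (fun i => u i.succ) (fun i => hu _)
    -- evaluation
    have hval : ∀ (ρ : A →+* ℂ) (α : Fin (m + 1) → ℂ),
        ∑ t, eval₂RingHom ρ (α 0) (a' t) * ∏ i : Fin m, α i.succ ^ e t i.succ =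
          ∑ t, ρ (a t) * ∏ i, α i ^ e t i := by
      intro ρ α
      refine Finset.sum_congr rfl fun t _ => ?_
      rw [Fin.prod_univ_succ, ha']
      simp only [coe_eval₂RingHom, eval₂_mul, eval₂_C, eval₂_X_pow]
      ring
    -- the bound `B`
    obtain ⟨B, hB⟩ : ∃ B : ℝ, B = C₂ * Y ^ (g₁ + 1) := ⟨_, rfl⟩
    have hY1p : ∀ k : ℕ, 1 ≤ Y ^ k := fun k => one_le_pow₀ hY
    have hB1 : 1 ≤ B := by rw [hB]; exact one_le_mul_of_one_le_of_one_le hC₂1 (hY1p _)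
    have hYB : Y ≤ B := by
      rw [hB]
      calc Y ≤ Y ^ (g₁ + 1) := le_self_pow₀ hY (by omega)
        _ ≤ _ := le_mul_of_one_le_left (by positivity) hC₂1
    have hGB' : C₁ * Y' ^ g₁ ≤ B := by
      rw [hB, hC₂, hY', mul_pow, mul_assoc C₁]
      have h1 : (T ^ E) ^ g₁ ≤ (T ^ E) ^ (g₁ + 1) := pow_le_pow_right₀ hTE (by omega)
      have h2 : Y ^ g₁ ≤ Y ^ (g₁ + 1) := pow_le_pow_right₀ hY (by omega)
      exact mul_le_mul_of_nonneg_left (mul_le_mul h1 h2 (by positivity) (by positivity)) (by linarith)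
    obtain ⟨N, hNf, hNl, hNs, hNn⟩ := step hℓ hfil φ hφ D g₁ s hs T hT G hGf.1 g₁ hGf.2 (P 0) (hP 0) (hPD 0) B hB1
      (fun k => (hYP 0 k).trans hYB)
      (fun j => (le_len hℓ G j).trans ((hlen' G).trans (hGl.trans hGB'))) (u 0) (hu 0)
    have hgs : (g₁ + 1) * (s + 1) ≤ g := by omega
    have hBs : s.factorial * B ^ s ≤ s.factorial * C₂ ^ s * Y ^ ((g₁ + 1) * s) := by
      rw [hB, mul_pow, ← pow_mul, mul_assoc]
    refine ⟨N, hfil.mono _ _ (by rw [hg]; exact Nat.le_add_right _ _) hNf, ?_, ?_, ?_⟩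
    · refine hNl.trans (hBs.trans ?_)
      refine mul_le_mul hC₃le (pow_le_pow_right₀ hY ?_) (by positivity) (by linarith)
      rw [hg]
      nlinarith
    · intro ε h1 h2
      have hε0 : 0 ≤ ε := (norm_nonneg _).trans h1
      rw [← hval φ u, ← hφ'] at h1
      have h3 := hGs ε h1 (fun i => h2 _)
      rw [hφ'] at h3
      have h4 : C₁ * Y' ^ g₁ * ε ≤ B * ε := mul_le_mul_of_nonneg_right hGB' hε0
      have h5 := hNs (B * ε) (h3.trans h4) ((h2 0).trans (le_mul_of_one_le_left hε0 hB1))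
      refine h5.trans ?_
      have h6 : s * T ^ s * (s.factorial * B ^ s) * (B * ε) = C₃ * Y ^ ((g₁ + 1) * (s + 1)) * ε := by
        rw [hC₃, hB]; ring
      rw [h6]
      have h7 : Y ^ ((g₁ + 1) * (s + 1)) ≤ Y ^ g := pow_le_pow_right₀ hY hgs
      have h8 : (0 : ℝ) ≤ C₃ := by linarith
      gcongr
    · intro ρ h
      refine hNn ρ fun α₀ hα₀ => ?_
      refine hGn (eval₂RingHom ρ α₀) fun α' hα' => ?_
      have h1 := h (Fin.cons α₀ α') (fun i => by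
        refine Fin.cases ?_ (fun j => ?_) i
        · rw [Fin.cons_zero]; exact hα₀
        · rw [Fin.cons_succ]; exact hα' j)
      rw [← hval ρ (Fin.cons α₀ α')] at h1
      simpa only [Fin.cons_zero, Fin.cons_succ] using h1

end Pool.Agent.Run7.h168.Mult
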